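import Pool.Agent.Run7.h676.NI.Quot

/-! Piece NIL -/

set_option autoImplicit false

open scoped commutatorElement

namespace Pool.Agent.Run7.h676.NI

theorem t_NIL (hCF : S_CF) (hLIFT : S_LIFT) : S_NIL := by
  have key : ∀ n : ℕ, ∀ (Γ : Type) [Group Γ] [Finite Γ] (p : ℕ) (L V H : Subgroup Γ),
      Nat.card Γ = n → Cfg p L V → H ≤ L →
      (∀ v ∈ V, v ≠ 1 → H ≤ Subgroup.closure {y : Γ | ∃ x ∈ L, y = x⁻¹ * (v * x * v⁻¹)}) →
      Group.IsNilpotent H := by
    intro n
    induction n using Nat.strong_induction_on with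
    | _ n ih =>
      intro Γ _ _ p L V H hn hcfg hHL hH
      by_cases hL : L = ⊥
      · have hHb : H = ⊥ := le_bot_iff.1 (hL ▸ hHL)
        subst hHb
        infer_instance
      have hfin : ({M | M.Normal ∧ M ≤ L ∧ M ≠ ⊥} : Set (Subgroup Γ)).Finite := Set.toFinite _
      obtain ⟨M, hMmin⟩ := hfin.exists_minimal ⟨L, hcfg.normal, le_rfl, hL⟩
      obtain ⟨hMn, hML, hMb⟩ := hMmin.prop
      have hmin : ∀ M' : Subgroup Γ, M'.Normal → M' ≤ M → M' = ⊥ ∨ M' = M := by
        intro M' hM'n hM'
        by_cases hb : M' = ⊥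
        · exact Or.inl hb
        · exact Or.inr (le_antisymm hM' (hMmin.le_of_le ⟨hM'n, hM'.trans hML, hb⟩ hM'))
      obtain ⟨v, hv, hv1, hcomm⟩ := hCF Γ p L V M hcfg hML hMn hMb hmin
      have hHM : H ≤ Subgroup.centralizer (M : Set Γ) := by
        refine (hH v hv hv1).trans ?_
        rw [Subgroup.closure_le]
        rintro _ ⟨x, hx, rfl⟩
        refine Subgroup.mem_centralizer_iff.2 fun m hm => ?_
        exact (hcomm x hx m hm).symm
      have hlt : Nat.card (Γ ⧸ M) < n := by
        have h1 := Subgroup.card_eq_card_quotient_mul_card_subgroup M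
        have h2 : 1 < Nat.card M := by
          rw [Finite.one_lt_card_iff_nontrivial]
          exact (Subgroup.nontrivial_iff_ne_bot M).2 hMb
        have h3 : 0 < Nat.card (Γ ⧸ M) := Nat.card_pos
        rw [← hn, h1]
        nlinarith
      set f := QuotientGroup.mk' M with hf
      have hnil : Group.IsNilpotent (H.map f) := by
        refine ih _ hlt (Γ ⧸ M) p (L.map f) (V.map f) (H.map f) rfl (cfg_quot hLIFT hcfg M hML)
          (Subgroup.map_mono hHL) ?_
        rintro _ ⟨u, hu, rfl⟩ hu1
        have hu' : u ≠ 1 := by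
          rintro rfl
          exact hu1 (map_one f)
        refine (Subgroup.map_mono (hH u hu hu')).trans ?_
        rw [MonoidHom.map_closure, Subgroup.closure_le]
        rintro _ ⟨_, ⟨x, hx, rfl⟩, rfl⟩
        refine Subgroup.subset_closure ⟨f x, ⟨x, hx, rfl⟩, ?_⟩
        simp only [map_mul, map_inv]
      refine Subgroup.isNilpotent_of_ker_le_center (f.subgroupMap H) ?_
      intro h hh
      have hhM : (h : Γ) ∈ M := by
        have h1 : f (h : Γ) = 1 := congrArg Subtype.val (MonoidHom.mem_ker.1 hh)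
        exact (QuotientGroup.eq_one_iff _).1 h1
      rw [Subgroup.mem_center_iff]
      intro g
      apply Subtype.ext
      exact ((Subgroup.mem_centralizer_iff.1 (hHM g.2)) (h : Γ) hhM).symm
  intro Γ _ _ p L V H hcfg hHL hH
  exact key _ Γ p L V H rfl hcfg hHL hH

end Pool.Agent.Run7.h676.NI
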