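import Pool.Agent.Run7.h676.NI.Iface

/-! Piece SP -/

set_option autoImplicit false

open scoped commutatorElement

namespace Pool.Agent.Run7.h676.NI

theorem t_SP (h1 : S_STR) (h2 : S_GRP) (h3 : S_REPB) (h4 : S_REPC1) (h5 : S_REPC2) (h6 : S_REPD) :
    S_SP := by
  intro Γ k W _ _ _ _ _ _ _ ρ p L V hcfg hirr hfaith hfix
  classical
  by_contra hcon
  push Not at hcon
  have hVL : ∀ v ∈ V, (∀ x ∈ L, v * x = x * v) → v = 1 := by
    intro v hv hx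
    by_contra hne
    obtain ⟨x, hxL, hxx⟩ := hcon v hv hne
    exact hxx (hx x hxL)
  obtain ⟨R, hRL, hRn, hR2, hVR⟩ := h1 Γ p L V hcfg.ea hcfg.normal hcfg.solv hcfg.cop hVL
  obtain ⟨U, w, hgood, hH1⟩ := h3 Γ k W ρ p L V R hcfg hirr hfaith hRL hRn hR2 hVR
  have hRcop : ¬ p ∣ Nat.card R := fun h =>
    hcfg.cop (h.trans (Subgroup.card_dvd_of_le hRL))
  have hRfpf : ∀ x ∈ R, (∀ v ∈ V, v * x = x * v) → x = 1 := fun x hx h => hcfg.fpf x (hRL hx) h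
  obtain ⟨Q, hQ1, hQ2, hQ3, hQ4, hQ5⟩ :=
    h2 Γ p R V U hcfg.ea hRn hR2 hRcop hRfpf hgood.nin hH1
  obtain ⟨w₁, hw1, hw1s, hw1e⟩ := h4 Γ k W ρ R U Q w hRn hR2 hgood hQ1 hQ2 hQ4
  obtain ⟨w', hw', hws, hwe, hwl⟩ :=
    h5 Γ k W ρ p R V U Q w w₁ hcfg.ea hRn hR2 hRcop hgood hQ1 hQ2 hQ3 hw1 hw1s hw1e
  letI : Fintype Γ := Fintype.ofFinite Γ
  have hne := h6 Γ k W ρ R V U Q w w' hRn hR2 hgood hQ1 hQ2 hQ3 hw' hws hwe
    (fun b hb hsame => hQ5 b hb (hwl b hb hsame))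
  refine hne (hfix _ ?_)
  intro v hv
  rw [map_sum]
  refine Finset.sum_bij (fun x _ => v * x) ?_ ?_ ?_ ?_
  · intro x hx
    rw [Finset.mem_filter] at hx ⊢
    exact ⟨Finset.mem_univ _, V.mul_mem hv hx.2⟩
  · intro a _ b _ h
    exact mul_left_cancel h
  · intro b hb
    rw [Finset.mem_filter] at hb
    refine ⟨v⁻¹ * b, ?_, by group⟩
    rw [Finset.mem_filter]
    exact ⟨Finset.mem_univ _, V.mul_mem (V.inv_mem hv) hb.2⟩
  · intro a _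
    rw [map_mul]
    rfl

end Pool.Agent.Run7.h676.NI
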