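import Pool.Agent.Run7.h676.NI.Quot

/-! Piece SS -/

set_option autoImplicit false

open scoped commutatorElement

namespace Pool.Agent.Run7.h676.NI

theorem t_SS (hSP : S_SP) (hLIFT : S_LIFT) : S_SS := by
  intro Γ k E _ _ _ _ _ _ _ _ ρ p L V hcfg hfix
  classical
  have hLn := hcfg.normal
  have hne : ({X | X ≠ ⊥ ∧ ∀ γ, ∀ u ∈ X, ρ γ u ∈ X} : Set (Submodule k E)).Nonempty :=
    ⟨⊤, top_ne_bot, fun _ _ _ => Submodule.mem_top⟩
  obtain ⟨W, ⟨hWb, hWi⟩, hWmin⟩ := WellFounded.has_min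
    (wellFounded_lt : WellFounded ((· < ·) : Submodule k E → Submodule k E → Prop)) _ hne
  let ρW : Γ →* (W →ₗ[k] W) :=
    { toFun := fun γ => (ρ γ).restrict (fun u hu => hWi γ u hu)
      map_one' := by
        ext u
        simp
      map_mul' := by
        intro a b
        ext u
        simp [LinearMap.restrict_apply, map_mul] }
  have hρW : ∀ γ (u : W), ((ρW γ u : W) : E) = ρ γ u := fun γ u => rfl
  let N : Subgroup Γ := ρW.ker ⊓ L
  have hNn : N.Normal := inferInstance
  have hNL : N ≤ L := inf_le_right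
  let ρb : (Γ ⧸ N) →* (W →ₗ[k] W) := QuotientGroup.lift N ρW (fun x hx => (Subgroup.mem_inf.1 hx).1)
  have hρb : ∀ γ : Γ, ρb (QuotientGroup.mk' N γ) = ρW γ := fun γ => rfl
  have hcfg' := cfg_quot hLIFT hcfg N hNL
  have hirr : Irr ρb := by
    constructor
    · exact (Submodule.nontrivial_iff_ne_bot).2 hWb
    · intro X hX
      have hX' : ∀ γ, ∀ u ∈ X.map W.subtype, ρ γ u ∈ X.map W.subtype := by
        rintro γ _ ⟨u, hu, rfl⟩
        refine ⟨ρW γ u, ?_, rfl⟩
        have := hX (QuotientGroup.mk' N γ) u hu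
        rwa [hρb] at this
      by_cases hXb : X = ⊥
      · exact Or.inl hXb
      · right
        have hXb' : X.map W.subtype ≠ ⊥ := by
          intro h
          exact hXb (Submodule.map_injective_of_injective W.injective_subtype
            (h.trans (Submodule.map_bot _).symm))
        have hnlt := hWmin (X.map W.subtype) ⟨hXb', hX'⟩
        have hle : X.map W.subtype ≤ W := Submodule.map_subtype_le W X
        have heq : X.map W.subtype = W := by
          by_contra hne
          exact hnlt (lt_of_le_of_ne hle hne)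
        rw [eq_top_iff]
        intro u _
        have hu : (u : E) ∈ X.map W.subtype := by rw [heq]; exact u.2
        obtain ⟨u', hu', he⟩ := hu
        have : u' = u := Subtype.ext he
        rwa [← this]
  have hfaith : ∀ x ∈ L.map (QuotientGroup.mk' N), ρb x = 1 → x = 1 := by
    rintro _ ⟨x, hx, rfl⟩ h1
    rw [hρb] at h1
    exact (QuotientGroup.eq_one_iff _).2 (Subgroup.mem_inf.2 ⟨MonoidHom.mem_ker.2 h1, hx⟩)
  have hfix' : ∀ f : W, (∀ v ∈ V.map (QuotientGroup.mk' N), ρb v f = f) → f = 0 := by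
    intro f hf
    have h1 : (f : E) = 0 := by
      refine hfix f fun v hv => ?_
      have := hf _ ⟨v, hv, rfl⟩
      rw [hρb] at this
      exact congrArg Subtype.val this
    exact Subtype.ext h1
  obtain ⟨_, ⟨v, hv, rfl⟩, hv1, hvc⟩ :=
    hSP (Γ ⧸ N) k W ρb p (L.map (QuotientGroup.mk' N)) (V.map (QuotientGroup.mk' N)) hcfg' hirr
      hfaith hfix'
  have hvne : v ≠ 1 := by
    rintro rfl
    exact hv1 (map_one _)
  obtain ⟨f, hf, hf0⟩ := Submodule.exists_mem_ne_zero_of_ne_bot hWb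
  refine ⟨v, hv, hvne, f, hf0, fun x hx => ?_⟩
  have h1 : x⁻¹ * (v * x * v⁻¹) ∈ N := (mk_comm_iff v x).1 (hvc _ ⟨x, hx, rfl⟩)
  have h2 : ρW (x⁻¹ * (v * x * v⁻¹)) = 1 := MonoidHom.mem_ker.1 (Subgroup.mem_inf.1 h1).1
  have h3 := hρW (x⁻¹ * (v * x * v⁻¹)) ⟨f, hf⟩
  rw [h2] at h3
  exact h3.symm

end Pool.Agent.Run7.h676.NI
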