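import Pool.Agent.Run7.h676.NI.Iface

/-! Piece CRIT -/

set_option autoImplicit false

open scoped commutatorElement

namespace Pool.Agent.Run7.h676.NI

lemma bracket_mem_left {Γ : Type} [Group Γ] {A : Subgroup Γ} (hA : A.Normal) {a : Γ} (ha : a ∈ A)
    (y : Γ) : ⁅a, y⁆ ∈ A := by
  have h1 : ⁅a, y⁆ = a * (y * a⁻¹ * y⁻¹) := by rw [commutatorElement_def]; group
  rw [h1]
  exact A.mul_mem ha (hA.conj_mem _ (A.inv_mem ha) y)

theorem t_CRIT : S_CRIT := by
  intro Γ _ _ F hFn hFnil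
  classical
  let P : Subgroup Γ → Prop := fun A => A.Normal ∧ A ≤ F ∧ ∀ x ∈ A, ∀ y ∈ A, x * y = y * x
  have hfin : ({A | P A} : Set (Subgroup Γ)).Finite := Set.toFinite _
  obtain ⟨A, hAmax⟩ := hfin.exists_maximal ⟨⊥, by
    refine ⟨inferInstance, bot_le, ?_⟩
    intro x hx y hy
    rw [Subgroup.mem_bot.1 hx, Subgroup.mem_bot.1 hy]⟩
  obtain ⟨hAn, hAF, hAc⟩ := hAmax.prop
  have hAconj : ∀ g : Γ, ∀ a ∈ A, g⁻¹ * a * g ∈ A := fun g a ha => by
    simpa using hAn.conj_mem a ha g⁻¹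
  let R : Subgroup Γ :=
    { carrier := {x | x ∈ F ∧ (∀ a ∈ A, x * a = a * x) ∧ ∀ y ∈ F, ⁅x, y⁆ ∈ A}
      mul_mem' := by
        rintro x z ⟨hx, hx1, hx2⟩ ⟨hz, hz1, hz2⟩
        refine ⟨F.mul_mem hx hz, fun a ha => ?_, fun y hy => ?_⟩
        · rw [mul_assoc, hz1 a ha, ← mul_assoc, hx1 a ha, mul_assoc]
        · have h1 : ⁅x * z, y⁆ = x * ⁅z, y⁆ * x⁻¹ * ⁅x, y⁆ := by
            simp only [commutatorElement_def]; group
          rw [h1]
          exact A.mul_mem (hAn.conj_mem _ (hz2 y hy) x) (hx2 y hy)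
      one_mem' := by
        refine ⟨F.one_mem, fun a _ => by rw [one_mul, mul_one], fun y _ => ?_⟩
        rw [commutatorElement_one_left]; exact A.one_mem
      inv_mem' := by
        rintro x ⟨hx, hx1, hx2⟩
        refine ⟨F.inv_mem hx, fun a ha => ?_, fun y hy => ?_⟩
        · have := hx1 a ha
          calc x⁻¹ * a = x⁻¹ * (a * x) * x⁻¹ := by group
            _ = x⁻¹ * (x * a) * x⁻¹ := by rw [this]
            _ = a * x⁻¹ := by group
        · have h1 : ⁅x⁻¹, y⁆ = x⁻¹ * ⁅x, y⁆⁻¹ * x := by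
            simp only [commutatorElement_def]; group
          rw [h1]
          exact hAconj x _ (A.inv_mem (hx2 y hy)) }
  have memR : ∀ x, x ∈ R ↔ x ∈ F ∧ (∀ a ∈ A, x * a = a * x) ∧ ∀ y ∈ F, ⁅x, y⁆ ∈ A :=
    fun x => Iff.rfl
  have hAR : A ≤ R := fun a ha => ⟨hAF ha, fun b hb => hAc a ha b hb,
    fun y _ => bracket_mem_left hAn ha y⟩
  have hRn : R.Normal := by
    constructor
    rintro x ⟨hx, hx1, hx2⟩ g
    refine ⟨hFn.conj_mem x hx g, fun a ha => ?_, fun y hy => ?_⟩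
    · have h1 := hx1 _ (hAconj g a ha)
      calc g * x * g⁻¹ * a = g * (x * (g⁻¹ * a * g)) * g⁻¹ := by group
        _ = g * ((g⁻¹ * a * g) * x) * g⁻¹ := by rw [h1]
        _ = a * (g * x * g⁻¹) := by group
    · have h1 : g⁻¹ * y * g ∈ F := by simpa using hFn.conj_mem y hy g⁻¹
      have h2 : ⁅g * x * g⁻¹, y⁆ = g * ⁅x, g⁻¹ * y * g⁆ * g⁻¹ := by
        simp only [commutatorElement_def]; group
      rw [h2]
      exact hAn.conj_mem _ (hx2 _ h1) g
  have hR2 : Cl2 R := by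
    intro x hx y hy z hz
    rw [commutatorElement_eq_one_iff_mul_comm]
    exact (((memR z).1 hz).2.1 _ (((memR x).1 hx).2.2 y ((memR y).1 hy).1)).symm
  let D : Subgroup Γ := F ⊓ Subgroup.centralizer (R : Set Γ)
  have memD : ∀ x, x ∈ D ↔ x ∈ F ∧ ∀ y ∈ R, y * x = x * y := fun x => by
    rw [Subgroup.mem_inf, Subgroup.mem_centralizer_iff]; rfl
  have hDn : D.Normal := by
    constructor
    intro x hx g
    obtain ⟨h1, h2⟩ := (memD x).1 hx
    refine (memD _).2 ⟨hFn.conj_mem x h1 g, fun y hy => ?_⟩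
    have h3 := h2 (g⁻¹ * y * g) (by simpa using hRn.conj_mem y hy g⁻¹)
    calc y * (g * x * g⁻¹) = g * ((g⁻¹ * y * g) * x) * g⁻¹ := by group
      _ = g * (x * (g⁻¹ * y * g)) * g⁻¹ := by rw [h3]
      _ = g * x * g⁻¹ * y := by group
  let D1 : Subgroup Γ := D ⊓ R
  have hD1le : ∀ x ∈ D, (∀ y ∈ F, ⁅x, y⁆ ∈ A) → x ∈ A := by
    have hP : P D1 := by
      refine ⟨?_, fun x hx => ((memD x).1 (Subgroup.mem_inf.1 hx).1).1, ?_⟩
      · exact Subgroup.normal_inf_normal D R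
      · intro x hx y hy
        exact (((memD x).1 (Subgroup.mem_inf.1 hx).1).2 y (Subgroup.mem_inf.1 hy).2).symm
    have hAD1 : A ≤ D1 := by
      intro a ha
      refine Subgroup.mem_inf.2 ⟨(memD a).2 ⟨hAF ha, fun y hy => ?_⟩, hAR ha⟩
      exact ((memR y).1 hy).2.1 a ha
    have hD1A : D1 ≤ A := hAmax.le_of_ge hP hAD1
    intro x hx hxA
    refine hD1A (Subgroup.mem_inf.2 ⟨hx, (memR x).2 ⟨((memD x).1 hx).1, fun a ha => ?_, hxA⟩⟩)
    exact (((memD x).1 hx).2 a (hAR ha)).symm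
  obtain ⟨n, hn⟩ := (Subgroup.isNilpotent_iff_lowerCentralSeries F).1 hFnil
  have hind : ∀ j, j ≤ n → D ⊓ F.lowerCentralSeries (n - j) ≤ A := by
    intro j
    induction j with
    | zero =>
      intro _
      rw [Nat.sub_zero, hn, inf_bot_eq]
      exact bot_le
    | succ j ih =>
      intro hj x hx
      obtain ⟨hxD, hxL⟩ := Subgroup.mem_inf.1 hx
      refine hD1le x hxD fun y hy => ?_
      refine ih (by omega) (Subgroup.mem_inf.2 ⟨bracket_mem_left hDn hxD y, ?_⟩)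
      have h1 : n - j = (n - (j + 1)) + 1 := by omega
      rw [h1, Subgroup.lowerCentralSeries_succ]
      exact Subgroup.commutator_mem_commutator hxL hy
  have hDA : D ≤ A := by
    intro x hx
    have h1 := hind n le_rfl
    rw [Nat.sub_self, Subgroup.lowerCentralSeries_zero] at h1
    exact h1 (Subgroup.mem_inf.2 ⟨hx, ((memD x).1 hx).1⟩)
  refine ⟨R, fun x hx => ((memR x).1 hx).1, hRn, hR2, fun x hx hc => ?_⟩
  exact hAR (hDA ((memD x).2 ⟨hx, fun y hy => (hc y hy).symm⟩))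

end Pool.Agent.Run7.h676.NI
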