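import Pool.Agent.Run7.h676.NI.Iface

/-! Basic facts on class two groups -/

set_option autoImplicit false

open scoped commutatorElement

namespace Pool.Agent.Run7.h676.NI

variable {Γ : Type} [Group Γ] {R U : Subgroup Γ}

lemma comm_mem {x y : Γ} (hx : x ∈ R) (hy : y ∈ R) : ⁅x, y⁆ ∈ R := by
  rw [commutatorElement_def]
  exact R.mul_mem (R.mul_mem (R.mul_mem hx hy) (R.inv_mem hx)) (R.inv_mem hy)

lemma cl2_comm (hR : Cl2 R) {x y z : Γ} (hx : x ∈ R) (hy : y ∈ R) (hz : z ∈ R) :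
    ⁅x, y⁆ * z = z * ⁅x, y⁆ :=
  commutatorElement_eq_one_iff_mul_comm.1 (hR x hx y hy z hz)

lemma cl2_mulL (hR : Cl2 R) {x x' y : Γ} (hx : x ∈ R) (hx' : x' ∈ R) (hy : y ∈ R) :
    ⁅x * x', y⁆ = ⁅x, y⁆ * ⁅x', y⁆ := by
  have h1 : ⁅x * x', y⁆ = x * ⁅x', y⁆ * x⁻¹ * ⁅x, y⁆ := by
    simp only [commutatorElement_def]; group
  have h2 : x * ⁅x', y⁆ * x⁻¹ = ⁅x', y⁆ := by
    rw [← cl2_comm hR hx' hy hx]; group
  rw [h1, h2]
  exact cl2_comm hR hx' hy (comm_mem hx hy)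

lemma cl2_mulR (hR : Cl2 R) {x y y' : Γ} (hx : x ∈ R) (hy : y ∈ R) (hy' : y' ∈ R) :
    ⁅x, y * y'⁆ = ⁅x, y⁆ * ⁅x, y'⁆ := by
  have h1 : ⁅x, y * y'⁆ = ⁅x, y⁆ * (y * ⁅x, y'⁆ * y⁻¹) := by
    simp only [commutatorElement_def]; group
  have h2 : y * ⁅x, y'⁆ * y⁻¹ = ⁅x, y'⁆ := by
    rw [← cl2_comm hR hx hy' hy]; group
  rw [h1, h2]

lemma cl2_invL (hR : Cl2 R) {x y : Γ} (hx : x ∈ R) (hy : y ∈ R) :
    ⁅x⁻¹, y⁆ = ⁅x, y⁆⁻¹ := by
  have h := cl2_mulL hR hx (R.inv_mem hx) hy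
  rw [mul_inv_cancel, commutatorElement_one_left] at h
  exact (inv_eq_of_mul_eq_one_right h.symm).symm

lemma cl2_invR (hR : Cl2 R) {x y : Γ} (hx : x ∈ R) (hy : y ∈ R) :
    ⁅x, y⁻¹⁆ = ⁅x, y⁆⁻¹ := by
  have h := cl2_mulR hR hx hy (R.inv_mem hy)
  rw [mul_inv_cancel, commutatorElement_one_right] at h
  exact (inv_eq_of_mul_eq_one_right h.symm).symm

lemma U_sub_Rad (hU : NIn R U) {u : Γ} (hu : u ∈ U) : u ∈ Rad R U :=
  ⟨hU.le hu, fun y hy => hU.nor u hu y hy⟩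

lemma comm_mem_Rad (hR : Cl2 R) {x y : Γ} (hx : x ∈ R) (hy : y ∈ R) : ⁅x, y⁆ ∈ Rad R U :=
  ⟨comm_mem hx hy, fun z hz => by rw [hR x hx y hy z hz]; exact U.one_mem⟩

lemma cl2_nilpotent (hR : Cl2 R) : Group.IsNilpotent R := by
  rw [Subgroup.isNilpotent_iff_lowerCentralSeries]
  refine ⟨2, ?_⟩
  rw [eq_bot_iff]
  refine Subgroup.commutator_le.2 ?_
  intro c hc z hz
  rw [Subgroup.mem_bot]
  have hle : R.lowerCentralSeries 1 ≤ Subgroup.centralizer (R : Set Γ) := by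
    refine Subgroup.commutator_le.2 ?_
    intro x hx y hy
    rw [Subgroup.mem_centralizer_iff]
    intro z hz
    exact (cl2_comm hR hx hy hz).symm
  rw [commutatorElement_eq_one_iff_mul_comm]
  exact (Subgroup.mem_centralizer_iff.1 (hle hc) z hz).symm

lemma cl2_solvable (hR : Cl2 R) : Group.IsSolvable R := by
  have := cl2_nilpotent hR
  infer_instance

end Pool.Agent.Run7.h676.NI
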