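import Pool.Agent.Run7.h676.NI.Cl

/-! Piece GRP -/

set_option autoImplicit false

open scoped commutatorElement

namespace Pool.Agent.Run7.h676.NI

variable {Γ : Type} [Group Γ] {R U : Subgroup Γ}

/-- the elements of `R` commuting modulo `U` with a subset `S` of `R` -/
def perp (hR : Cl2 R) (U : Subgroup Γ) (S : Set Γ) (hS : S ⊆ R) : Subgroup Γ where
  carrier := {x | x ∈ R ∧ ∀ y ∈ S, ⁅x, y⁆ ∈ U}
  mul_mem' := by
    rintro a b ⟨ha, ha'⟩ ⟨hb, hb'⟩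
    refine ⟨R.mul_mem ha hb, fun y hy => ?_⟩
    rw [cl2_mulL hR ha hb (hS hy)]
    exact U.mul_mem (ha' y hy) (hb' y hy)
  one_mem' := ⟨R.one_mem, fun y _ => by rw [commutatorElement_one_left]; exact U.one_mem⟩
  inv_mem' := by
    rintro a ⟨ha, ha'⟩
    refine ⟨R.inv_mem ha, fun y hy => ?_⟩
    rw [cl2_invL hR ha (hS hy)]
    exact U.inv_mem (ha' y hy)

lemma mem_perp (hR : Cl2 R) {S : Set Γ} (hS : S ⊆ R) {x : Γ} :
    x ∈ perp hR U S hS ↔ x ∈ R ∧ ∀ y ∈ S, ⁅x, y⁆ ∈ U := Iff.rfl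

lemma perp_symm (hR : Cl2 R) {A B : Subgroup Γ} (hA : (A : Set Γ) ⊆ R) (hB : (B : Set Γ) ⊆ R)
    (h : A ≤ perp hR U B hB) : B ≤ perp hR U A hA := by
  intro y hy
  refine ⟨hB hy, fun x hx => ?_⟩
  rw [← commutatorElement_inv]
  exact U.inv_mem ((h hx).2 y hy)

lemma iso_sup (hR : Cl2 R) {Q C : Subgroup Γ} (hQ : (Q : Set Γ) ⊆ R) (hC : (C : Set Γ) ⊆ R)
    (hQC : ((Q ⊔ C : Subgroup Γ) : Set Γ) ⊆ R)
    (h1 : ∀ x ∈ Q, ∀ y ∈ Q, ⁅x, y⁆ ∈ U) (h2 : ∀ x ∈ C, ∀ y ∈ Q, ⁅x, y⁆ ∈ U)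
    (h3 : ∀ x ∈ C, ∀ y ∈ C, ⁅x, y⁆ ∈ U) :
    ∀ x ∈ Q ⊔ C, ∀ y ∈ Q ⊔ C, ⁅x, y⁆ ∈ U := by
  have a1 : Q ⊔ C ≤ perp hR U Q hQ := sup_le (fun x hx => ⟨hQ hx, h1 x hx⟩)
    (fun x hx => ⟨hC hx, h2 x hx⟩)
  have a2 : Q ≤ perp hR U C hC := perp_symm hR hC hQ (fun x hx => ⟨hC hx, h2 x hx⟩)
  have a3 : Q ⊔ C ≤ perp hR U C hC := sup_le a2 (fun x hx => ⟨hC hx, h3 x hx⟩)
  have a4 : Q ⊔ C ≤ perp hR U (Q ⊔ C : Subgroup Γ) hQC :=
    sup_le (perp_symm hR hQC hQ a1) (perp_symm hR hQC hC a3)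
  exact fun x hx y hy => (a4 hx).2 y hy

theorem t_GRP (hGEN : S_GEN) (hRAD : S_RAD) (hC1 : S_C1) (hC3 : S_C3) : S_GRP := by
  intro Γ _ _ p R V U hea hRn hR2 hcop hfpf hU hH1
  classical
  obtain ⟨⟨Z, hZ⟩, B, hB⟩ := hRAD Γ R V U hR2 hU
  have memZ : ∀ x, x ∈ Z ↔ x ∈ Rad R U := by
    intro x; rw [← hZ]; rfl
  have memB : ∀ x, x ∈ B ↔ x ∈ Stb V R U := by
    intro x; rw [← hB]; rfl
  have hUZ : U ≤ Z := fun u hu => (memZ u).2 (U_sub_Rad hU hu)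
  have hconj : ∀ b : Γ, ∀ x ∈ R, b * x * b⁻¹ ∈ R := fun b x hx => hRn.conj_mem x hx b
  let P : Subgroup Γ → Prop := fun Q => Rad R U ⊆ Q ∧ Q ≤ R ∧
    (∀ b ∈ Stb V R U, ∀ y ∈ Q, b * y * b⁻¹ ∈ Q) ∧ (∀ x ∈ Q, ∀ y ∈ Q, ⁅x, y⁆ ∈ U)
  have hPZ : P Z := by
    refine ⟨hZ.ge, fun x hx => ((memZ x).1 hx).1, ?_, ?_⟩
    · intro b hb y hy
      have h1 : y⁻¹ * (b * y * b⁻¹) ∈ Z := hUZ (hb.2 y ((memZ y).1 hy))
      have h2 := Z.mul_mem hy h1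
      rwa [mul_inv_cancel_left] at h2
    · intro x hx y hy
      exact ((memZ x).1 hx).2 y ((memZ y).1 hy).1
  have hfin : ({Q | P Q} : Set (Subgroup Γ)).Finite := Set.toFinite _
  obtain ⟨Q, hQmax⟩ := hfin.exists_maximal ⟨Z, hPZ⟩
  obtain ⟨hQ1, hQ2, hQ3, hQ4⟩ := hQmax.prop
  refine ⟨Q, hQ1, hQ2, hQ3, hQ4, ?_⟩
  intro b hb hstar
  have hbV : b ∈ V := hb.1
  by_cases hV : V = ⊥
  · rw [hV] at hbV; exact Subgroup.mem_bot.1 hbV
  -- (a)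
  have hA : ∀ y ∈ Q, y⁻¹ * (b * y * b⁻¹) ∈ Rad R U := by
    intro y hy
    have hyR : y ∈ R := hQ2 hy
    have hyb : b * y * b⁻¹ ∈ R := hconj b y hyR
    refine ⟨R.mul_mem (R.inv_mem hyR) hyb, fun x hx => ?_⟩
    have hx' : b⁻¹ * x * b ∈ R := by simpa using hconj b⁻¹ x hx
    have hxe : b * (b⁻¹ * x * b) * b⁻¹ = x := by group
    have h1 := hstar _ hx' y hy
    rw [hxe, cl2_mulL hR2 (R.inv_mem hx') hx hyR, cl2_invL hR2 hx' hyR] at h1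
    have h2 := hb.2 _ (comm_mem_Rad (U := U) hR2 hx' hyR)
    rw [conjugate_commutatorElement, hxe] at h2
    have h3 : ⁅x, y⁻¹ * (b * y * b⁻¹)⁆ ∈ U := by
      rw [cl2_mulR hR2 hx (R.inv_mem hyR) hyb, cl2_invR hR2 hx hyR]
      have h4 := U.mul_mem (U.inv_mem h1) h2
      have h5 : (⁅b⁻¹ * x * b, y⁆⁻¹ * ⁅x, y⁆)⁻¹ * (⁅b⁻¹ * x * b, y⁆⁻¹ * ⁅x, b * y * b⁻¹⁆) =
          ⁅x, y⁆⁻¹ * ⁅x, b * y * b⁻¹⁆ := by group
      rwa [h5] at h4
    rw [← commutatorElement_inv]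
    exact U.inv_mem h3
  -- (b)
  have hBq : ∀ V' : Subgroup Γ, V' ≤ V → Nat.card V = p * Nat.card V' → b ∉ V' →
      ∀ x ∈ R, (∀ v ∈ V', v * x = x * v) → x ∈ Q := by
    intro V' hV' hcard hbV' x hx hxc
    obtain ⟨hi, hii⟩ := hC3 Γ p R V U hea hRn hR2 hfpf hU V' hV' hcard b hb hbV'
    set C : Subgroup Γ := R ⊓ Subgroup.centralizer (V' : Set Γ) with hCdef
    have hCR : C ≤ R := inf_le_left
    have hCc : ∀ y ∈ C, ∀ v ∈ V', v * y = y * v := fun y hy v hv =>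
      Subgroup.mem_centralizer_iff.1 (Subgroup.mem_inf.1 hy).2 v hv
    have hCm : ∀ y ∈ R, (∀ v ∈ V', v * y = y * v) → y ∈ C := fun y hy h =>
      Subgroup.mem_inf.2 ⟨hy, Subgroup.mem_centralizer_iff.2 h⟩
    have hsupR : Q ⊔ C ≤ R := sup_le hQ2 hCR
    have hP : P (Q ⊔ C) := by
      refine ⟨fun y hy => (le_sup_left : Q ≤ Q ⊔ C) (hQ1 hy), hsupR, ?_, ?_⟩
      · intro a ha y hy
        have haV : a ∈ V := ha.1
        have hle : (Q ⊔ C).map (MulAut.conj a).toMonoidHom ≤ Q ⊔ C := by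
          rw [Subgroup.map_sup]
          refine sup_le_sup ?_ ?_
          · rintro _ ⟨z, hz, rfl⟩
            exact hQ3 a ha z hz
          · rintro _ ⟨z, hz, rfl⟩
            refine hCm _ (hconj a z (hCR hz)) ?_
            intro v hv
            have e1 : v * a = a * v := hea.comm v (hV' hv) a haV
            have e2 : v * z = z * v := hCc z hz v hv
            have e3 : v * a⁻¹ = a⁻¹ * v := hea.comm v (hV' hv) a⁻¹ (V.inv_mem haV)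
            change v * (a * z * a⁻¹) = a * z * a⁻¹ * v
            calc v * (a * z * a⁻¹) = (v * a) * z * a⁻¹ := by group
              _ = a * (v * z) * a⁻¹ := by rw [e1]; group
              _ = a * z * (v * a⁻¹) := by rw [e2]; group
              _ = a * z * a⁻¹ * v := by rw [e3]; group
        exact hle ⟨y, hy, rfl⟩
      · refine iso_sup hR2 hQ2 hCR hsupR hQ4 ?_ ?_
        · intro z hz y hy
          obtain ⟨t, ht, -, hzt⟩ := hi z (hCR hz) (hCc z hz)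
          rw [hzt]
          exact hstar t ht y hy
        · intro z hz y hy
          exact hii z (hCR hz) y (hCR hy) (hCc z hz) (hCc y hy)
    have hle : Q ⊔ C ≤ Q := hQmax.le_of_ge hP le_sup_left
    exact hle ((le_sup_right : C ≤ Q ⊔ C) (hCm x hx hxc))
  -- (c)
  let T : Subgroup Γ :=
    { carrier := {x | x ∈ R ∧ x⁻¹ * (b * x * b⁻¹) ∈ Z}
      mul_mem' := by
        rintro x y ⟨hx, hx'⟩ ⟨hy, hy'⟩
        refine ⟨R.mul_mem hx hy, ?_⟩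
        have hn : y⁻¹ * (x⁻¹ * (b * x * b⁻¹)) * y ∈ Z := by
          set r := x⁻¹ * (b * x * b⁻¹) with hr
          have h1 := ((memZ r).1 hx').2 y⁻¹ (R.inv_mem hy)
          have h2 : r⁻¹ * (y⁻¹ * r * y) = ⁅r⁻¹, y⁻¹⁆ := by
            rw [commutatorElement_def]; group
          have h3 : ⁅r⁻¹, y⁻¹⁆ ∈ U := by
            rw [cl2_invL hR2 ((memZ r).1 hx').1 (R.inv_mem hy)]
            exact U.inv_mem h1
          have h4 := Z.mul_mem hx' (hUZ h3)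
          rwa [← h2, mul_inv_cancel_left] at h4
        have h5 : (x * y)⁻¹ * (b * (x * y) * b⁻¹) =
            (y⁻¹ * (x⁻¹ * (b * x * b⁻¹)) * y) * (y⁻¹ * (b * y * b⁻¹)) := by group
        show (x * y)⁻¹ * (b * (x * y) * b⁻¹) ∈ Z
        rw [h5]
        exact Z.mul_mem hn hy'
      one_mem' := by
        refine ⟨R.one_mem, ?_⟩
        simp [Z.one_mem]
      inv_mem' := by
        rintro x ⟨hx, hx'⟩
        refine ⟨R.inv_mem hx, ?_⟩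
        set r := x⁻¹ * (b * x * b⁻¹) with hr
        have hxr : x ∈ R := hx
        have h1 := ((memZ r).1 hx').2 x hx
        have h2 : x * r⁻¹ * x⁻¹ ∈ Z := by
          have h3 : ⁅x, r⁻¹⁆ ∈ U := by
            rw [cl2_invR hR2 hx ((memZ r).1 hx').1, commutatorElement_inv]
            exact h1
          have h4 : x * r⁻¹ * x⁻¹ = ⁅x, r⁻¹⁆ * r⁻¹ := by
            rw [commutatorElement_def]; group
          rw [h4]
          exact Z.mul_mem (hUZ h3) (Z.inv_mem hx')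
        show x⁻¹⁻¹ * (b * x⁻¹ * b⁻¹) ∈ Z
        have h5 : x⁻¹⁻¹ * (b * x⁻¹ * b⁻¹) = x * r⁻¹ * x⁻¹ := by rw [hr]; group
        rw [h5]
        exact h2 }
  have hRT : R ≤ T := by
    refine hGEN Γ p V R hea hV (fun v _ x hx => hconj v x hx) (cl2_solvable hR2) hcop T ?_
    intro V' hV' hcard x hx hxc
    refine ⟨hx, ?_⟩
    by_cases hbV' : b ∈ V'
    · have h1 : x⁻¹ * (b * x * b⁻¹) = 1 := by
        rw [hxc b hbV']; group
      rw [h1]; exact Z.one_mem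
    · exact (memZ _).2 (hA x (hBq V' hV' hcard hbV' x hx hxc))
  exact hC1 Γ p R V U hea hRn hR2 hcop hU hH1 b hb (fun x hx => (memZ _).1 (hRT hx).2)

end Pool.Agent.Run7.h676.NI
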