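import Pool.Agent.Run7.h676.NI.Iface

/-! Piece HOMK -/

set_option autoImplicit false

open scoped commutatorElement

namespace Pool.Agent.Run7.h676.NI

lemma exists_homK_aux (B : Type) [AddCommGroup B] [Nontrivial B] (q : ℕ) [Fact q.Prime]
    [Module (ZMod q) B] :
    ∃ f : B → AlgebraicClosure (ZMod q), (∀ x y : B, f (x + y) = f x + f y) ∧ f ≠ 0 := by
  obtain ⟨x, hx⟩ := exists_ne (0 : B)
  have hex : ∃ φ : B →ₗ[ZMod q] ZMod q, φ x ≠ 0 := by
    by_contra hcon
    push Not at hcon
    exact hx ((Module.forall_dual_apply_eq_zero_iff (ZMod q) x).1 hcon)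
  obtain ⟨φ, hφ⟩ := hex
  refine ⟨fun m => algebraMap (ZMod q) (AlgebraicClosure (ZMod q)) (φ m), ?_, ?_⟩
  · intro a b
    change algebraMap (ZMod q) (AlgebraicClosure (ZMod q)) (φ (a + b)) = _
    rw [map_add, map_add]
  · intro h
    have h1 := congrFun h x
    simp only [Pi.zero_apply] at h1
    rw [← map_zero (algebraMap (ZMod q) (AlgebraicClosure (ZMod q)))] at h1
    exact hφ ((algebraMap (ZMod q) (AlgebraicClosure (ZMod q))).injective h1)

lemma exists_homK (A : Type) [CommGroup A] [Nontrivial A] (q : ℕ) [Fact q.Prime]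
    (hexp : ∀ x : A, x ^ q = 1) :
    ∃ f : A → AlgebraicClosure (ZMod q), (∀ x y : A, f (x * y) = f x + f y) ∧ f ≠ 0 := by
  let hm : Module (ZMod q) (Additive A) := AddCommGroup.zmodModule (n := q) (by
    intro x
    exact hexp x.toMul)
  obtain ⟨f, h1, h2⟩ := @exists_homK_aux (Additive A) _ inferInstance q _ hm
  exact ⟨f, h1, h2⟩

theorem t_HOMK : S_HOMK := by
  intro Γ _ _ L M hL hML hMn hMb hmin
  classical
  have hMs : Group.IsSolvable M := by
    have := hL
    exact Group.isSolvable_of_isSolvable_injective (Subgroup.inclusion_injective hML)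
  have hMnt : Nontrivial M := (Subgroup.nontrivial_iff_ne_bot M).2 hMb
  have hlt : ⁅M, M⁆ < M := by
    have h1 := Group.IsSolvable.commutator_lt_top_of_nontrivial M
    refine lt_of_le_of_ne (Subgroup.commutator_le_self M) fun h => ?_
    rw [← Subgroup.map_subtype_commutator M] at h
    have h2 : (commutator M).map M.subtype = (⊤ : Subgroup M).map M.subtype := by
      rw [h, ← MonoidHom.range_eq_map, Subgroup.range_subtype]
    exact absurd (Subgroup.map_injective M.subtype_injective h2) h1.ne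
  have hbot : ⁅M, M⁆ = ⊥ := by
    rcases hmin ⁅M, M⁆ (Subgroup.commutator_normal M M) hlt.le with h | h
    · exact h
    · exact absurd h hlt.ne
  have hcomm : ∀ x ∈ M, ∀ y ∈ M, x * y = y * x := by
    intro x hx y hy
    have h1 : ⁅x, y⁆ ∈ ⁅M, M⁆ := Subgroup.commutator_mem_commutator hx hy
    rw [hbot, Subgroup.mem_bot] at h1
    exact commutatorElement_eq_one_iff_mul_comm.1 h1
  refine ⟨hcomm, ?_⟩
  have hcard : Nat.card M ≠ 1 := by
    have := Finite.one_lt_card (α := M)
    omega
  obtain ⟨q, hq, hqd⟩ := Nat.exists_prime_and_dvd hcard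
  have hqf : Fact q.Prime := ⟨hq⟩
  refine ⟨q, hqf, hqd, ?_⟩
  -- exponent q
  let Mq : Subgroup Γ :=
    { carrier := {x | x ∈ M ∧ x ^ q = 1}
      mul_mem' := by
        rintro a b ⟨ha, ha'⟩ ⟨hb, hb'⟩
        refine ⟨M.mul_mem ha hb, ?_⟩
        have : Commute a b := hcomm a ha b hb
        rw [this.mul_pow, ha', hb', one_mul]
      one_mem' := ⟨M.one_mem, one_pow _⟩
      inv_mem' := by
        rintro a ⟨ha, ha'⟩
        exact ⟨M.inv_mem ha, by rw [inv_pow, ha', inv_one]⟩ }
  have hMqn : Mq.Normal := by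
    constructor
    rintro x ⟨hx, hx'⟩ g
    exact ⟨hMn.conj_mem x hx g, by rw [conj_pow, hx', mul_one, mul_inv_cancel]⟩
  have hMq : Mq = M := by
    rcases hmin Mq hMqn (fun x hx => hx.1) with h | h
    · exfalso
      obtain ⟨x, hx⟩ := exists_prime_orderOf_dvd_card' (G := M) q hqd
      have h1 : (x : Γ) ∈ Mq := by
        refine ⟨x.2, ?_⟩
        have h2 : x ^ q = 1 := by rw [← hx]; exact pow_orderOf_eq_one x
        have h3 := congrArg Subtype.val h2
        simpa using h3
      rw [h, Subgroup.mem_bot] at h1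
      have h2 : x = 1 := Subtype.ext h1
      rw [h2, orderOf_one] at hx
      exact hq.one_lt.ne hx
    · exact h
  have hexp : ∀ x : M, x ^ q = 1 := by
    intro x
    have h1 : (x : Γ) ∈ Mq := by rw [hMq]; exact x.2
    apply Subtype.ext
    simpa using h1.2
  letI : CommGroup M := { (inferInstance : Group M) with
    mul_comm := fun a b => Subtype.ext (hcomm a a.2 b b.2) }
  obtain ⟨f, h1, h2⟩ := exists_homK M q hexp
  exact ⟨f, h1, h2⟩

end Pool.Agent.Run7.h676.NI
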