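import Mathlib

/-!
# Interface: MP_e56c9f_al, question 1 for soluble groups (project of helper676)

Target: if `V` is an elementary abelian `p`-group acting on a finite soluble group `G` with
`C_G(V) = 1`, then the intersection of the subgroups `[G,v]`, `v ≠ 1`, is nilpotent.

Every `S_XXX` below is a closed proposition; its docstring contains the full proof.  A piece that
uses other pieces is proved as `theorem t_XXX (h1 : S_AAA) (h2 : S_BBB) : S_XXX`.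

Conventions: everything happens inside one finite group `Γ` (in the application `Γ = G ⋊ V`);
`L`, `V`, `R`, ... are subgroups of `Γ`.  Mathlib commutator `⁅x, y⁆ = x * y * x⁻¹ * y⁻¹`.
-/

set_option autoImplicit false

open scoped commutatorElement

namespace Pool.Agent.Run7.h676.NI

/-- `V` is an elementary abelian `p`-subgroup. -/
structure EA {Γ : Type} [Group Γ] (p : ℕ) (V : Subgroup Γ) : Prop where
  prime : p.Prime
  comm : ∀ v ∈ V, ∀ w ∈ V, v * w = w * v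
  exp : ∀ v ∈ V, v ^ p = 1

/-- The standing configuration: `L` normal soluble `p'`-subgroup, `V` elementary abelian `p`-subgroup,
`C_L(V) = 1`, `Γ = L V`. -/
structure Cfg {Γ : Type} [Group Γ] (p : ℕ) (L V : Subgroup Γ) : Prop where
  ea : EA p V
  normal : L.Normal
  solv : Group.IsSolvable L
  cop : ¬ p ∣ Nat.card L
  fpf : ∀ x ∈ L, (∀ v ∈ V, v * x = x * v) → x = 1
  gen : ∀ γ : Γ, ∃ x ∈ L, ∃ v ∈ V, γ = x * v

/-- `R` has nilpotency class at most two. -/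
def Cl2 {Γ : Type} [Group Γ] (R : Subgroup Γ) : Prop :=
  ∀ x ∈ R, ∀ y ∈ R, ∀ z ∈ R, ⁅⁅x, y⁆, z⁆ = 1

/-- `U` is a subgroup of `R`, normal in `R`. -/
structure NIn {Γ : Type} [Group Γ] (R U : Subgroup Γ) : Prop where
  le : U ≤ R
  nor : ∀ u ∈ U, ∀ y ∈ R, ⁅u, y⁆ ∈ U

/-- The preimage in `R` of the centre of `R / U` (`U` normal in `R`). -/
def Rad {Γ : Type} [Group Γ] (R U : Subgroup Γ) : Set Γ :=
  {x | x ∈ R ∧ ∀ y ∈ R, ⁅x, y⁆ ∈ U}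

/-- The elements of `V` which act trivially on `Rad R U` modulo `U`. -/
def Stb {Γ : Type} [Group Γ] (V R U : Subgroup Γ) : Set Γ :=
  {v | v ∈ V ∧ ∀ r ∈ Rad R U, r⁻¹ * (v * r * v⁻¹) ∈ U}

/-! ## Part 1: abstract group theory -/

/-- **GPA** (size 120).  Abelian step.  `N` normal in `Γ` with `p ∤ |N|`, `V` elementary abelian,
`S` a subgroup containing all commutators of `N`.  Then some `n ∈ N` satisfies: each `v ∈ V` with
`v ∈ n S n⁻¹` lies in `x S x⁻¹` for ALL `x ∈ N`.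

Proof.  Choose `n ∈ N` with `#{v ∈ V : n⁻¹ v n ∈ S}` minimal; replacing `S` by `n S n⁻¹` (it again
contains the commutators of `N`, as `N` is normal) we may assume `n = 1`; put `D = V ⊓ S`, so
`(*) |V ⊓ c S c⁻¹| ≥ |D|` for all `c ∈ N`.  Let `d ∈ D`, `x ∈ N`, `c := x⁻¹ * (d * x * d⁻¹) ∈ N`.  We must
show `c ∈ S` (then `x⁻¹ d x = c d ∈ S`).  Work in `M = N / [N,N]` (abelian, e.g. `Abelianization N`, on
which `Γ` acts by conjugation, `MulAut.conjNormal`), let `S̄` be the image of `N ⊓ S` in `M`; as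
`[N,N] ≤ S`, an element of `N` lies in `S` iff its image lies in `S̄`; `S̄` is stable under conjugation
by `D ≤ S`.  For `m ∈ M` let `P(m) = ∏_{e ∈ D} e·m` (a homomorphism, commuting with the action of `V`
because `V` is abelian, and `P(d·m) = P(m)`).  So `P(c̄) = 1`.
Let `b ∈ V` with `c⁻¹ b c ∈ S`.  Then `a := c⁻¹ (b c b⁻¹) ∈ N` satisfies `a b = c⁻¹ b c ∈ S`.  For `e ∈ D`:
`e (a b) e⁻¹ = (e a e⁻¹) b ∈ S`, hence `(e a e⁻¹) a⁻¹ ∈ S`, so `e·ā ≡ ā mod S̄`.  Taking the product over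
`e ∈ D`: `P(ā) ≡ ā^{|D|} mod S̄`.  But `P(ā) = P(c̄)⁻¹ (b·P(c̄)) = 1`.  So `a^{|D|} ∈ S`-class trivial; `|D|`
is a power of `p` (`D` is a `p`-group) and `p ∤ |N|`, so `a ∈ S`, hence `b ∈ S`, `b ∈ D`.  So
`V ⊓ c S c⁻¹ ≤ D`, and by `(*)` equality: for all `e ∈ D`, `c⁻¹ e c ∈ S`, so `c⁻¹ (e c e⁻¹) ∈ S`, i.e.
`e·c̄ ≡ c̄ mod S̄` for all `e ∈ D`; the product gives `c̄^{|D|} ≡ P(c̄) = 1`, so again `c ∈ S`. -/
def S_GPA : Prop :=
  ∀ (Γ : Type) [Group Γ] [Finite Γ] (p : ℕ) (N S V : Subgroup Γ), EA p V → N.Normal →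
    ¬ p ∣ Nat.card N → (∀ x ∈ N, ∀ y ∈ N, ⁅x, y⁆ ∈ S) →
    ∃ n ∈ N, ∀ v ∈ V, n⁻¹ * v * n ∈ S → ∀ x ∈ N, x⁻¹ * v * x ∈ S

/-- **GP** (size 130, uses GPA).  `L` normal soluble with `p ∤ |L|`, `V` elementary abelian, `S` ANY
subgroup: some `g ∈ L` satisfies: each `v ∈ V` with `v ∈ g S g⁻¹` lies in `x S x⁻¹` for all `x ∈ L`.

Proof.  Write `S^g = g S g⁻¹`.  We show by strong induction on `|N|`, for all normal subgroups `N` of
`Γ` contained in `L` and ALL `S`: `∃ g ∈ N, V ⊓ S^g ≤ S^x for all x ∈ N`.  `N = 1`: clear.  Let `N ≠ 1`,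
`N₁ = ⁅N, N⁆` (normal in `Γ`, strictly smaller as `L` is soluble).  Let `C₁ = ⋂_{x ∈ N₁} S^x` (a
subgroup normalised by `N₁`) and `Ŝ = C₁ N₁` (a subgroup: `C₁ ⊔ N₁`, elements `c * y`).
Claim: for every `n ∈ N`, `V ⊓ Ŝ^n = V ⊓ C₁^n`.  Indeed `Ŝ^n = C₁^n N₁`, with `C₁^n` normalised by
`n N₁ n⁻¹ = N₁`; so if `v ∈ V`, `v = c y`, `c ∈ C₁^n`, `y ∈ N₁`, then `v^k ∈ C₁^n y^k` for all `k`
(as `y` normalises `C₁^n`).  With `k ≡ 0 mod |N₁|` and `k ≡ 1 mod p` (possible as `p ∤ |N₁|`) we get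
`v = v^k ∈ C₁^n`.
By GPA for `N` and `Ŝ` (which contains `N₁`): `∃ n ∈ N` with `V ⊓ Ŝ^n ≤ Ŝ^x` for all `x ∈ N`.  By induction
for `N₁` and the subgroup `S^n`: `∃ m ∈ N₁`, `V ⊓ (S^n)^m ≤ (S^n)^x` for all `x ∈ N₁`.  Now
`⋂_{x ∈ N₁} (S^n)^x = C₁^n` as `n⁻¹ N₁ n = N₁`.  So `V ⊓ S^{mn} ≤ V ⊓ C₁^n ≤ V ⊓ Ŝ^n ≤ V ⊓ Ŝ^x = V ⊓ C₁^x ≤ S^x`
for all `x ∈ N`.  So `g = m n` works. -/
def S_GP : Prop :=
  ∀ (Γ : Type) [Group Γ] [Finite Γ] (p : ℕ) (L S V : Subgroup Γ), EA p V → L.Normal → Group.IsSolvable L →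
    ¬ p ∣ Nat.card L →
    ∃ g ∈ L, ∀ v ∈ V, g⁻¹ * v * g ∈ S → ∀ x ∈ L, x⁻¹ * v * x ∈ S

/-- **LIFT** (size 50).  If `V` normalises the `p'`-subgroup `N` and fixes the coset `x N` under
conjugation, then the coset contains an element centralised by `V`.

Proof.  The finite `p`-group `V` acts by conjugation on the finite set `x N` (for `v ∈ V`, `n ∈ N`:
`v (x n) v⁻¹ = x * (x⁻¹ v x v⁻¹) * (v n v⁻¹) ∈ x N`), and `|x N| = |N|` is prime to `p`, so there is a fixed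
point (`IsPGroup.nonempty_fixed_point_of_prime_not_dvd_card`). -/
def S_LIFT : Prop :=
  ∀ (Γ : Type) [Group Γ] [Finite Γ] (p : ℕ) (V N : Subgroup Γ), EA p V →
    (∀ v ∈ V, ∀ x ∈ N, v * x * v⁻¹ ∈ N) → ¬ p ∣ Nat.card N →
    ∀ x : Γ, (∀ v ∈ V, x⁻¹ * (v * x * v⁻¹) ∈ N) → ∃ n ∈ N, ∀ v ∈ V, v * (x * n) = (x * n) * v

/-- **GENA** (size 150).  `V ≠ 1` elementary abelian acting on a finite abelian `p'`-group `M`: `M` is
generated by the fixed-point subgroups `C_M(V')`, `V'` of index `p` in `V`.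

Proof.  Let `T` be a subgroup containing all `C_M(V')`, `|V : V'| = p`.  Show by induction on the index
(equivalently downward induction on `|A|`) that for EVERY subgroup `A ≠ V` of `V` each `x` fixed by
`A` lies in `T`; then take `A = 1`.  If `A` has index `p` this is the hypothesis.  Otherwise the index
is `≥ p²`: choose `b ∈ V ∖ A` and `a ∈ V ∖ A⟨b⟩` (`A⟨b⟩` has order `p |A| < |V|`).  Let `x` be fixed by `A`.
For `g ∈ V` let `N_g(x) = ∏_{j<p} g^j • x`; as `g^p = 1` it is fixed by `g`, and it is fixed by `A` because `V`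
is abelian.  The identity
`(∏_{i<p} N_{a b^i}(x)) * N_b(x) = x^p * ∏_{j<p} ∏_{k<p} (a^j b^k) • x`
holds: on the left the factors with `j = 0` give `x^p`, and for `0 < j < p` the elements
`(a b^i)^j = a^j b^{ij}`, `i < p`, run through `a^j b^k`, `k < p` (as `j` is invertible mod `p`; index by
`ZMod p`), while `N_b(x)` is the row `j = 0` of the right-hand product.  Now `N_{a b^i}(x)` is fixed by
`A⟨a b^i⟩ > A`, which is `≠ V` since it has order `p |A|`; the same for `N_b(x)`; and the double product is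
fixed by `A` and by `b`, so by `A⟨b⟩`.  All are in `T` by induction, hence `x^p ∈ T`; as `p ∤ |M|`, `x ∈ T`
(`x` is a power of `x^p`). -/
def S_GENA : Prop :=
  ∀ (V M : Type) [CommGroup V] [Finite V] [CommGroup M] [Finite M] [MulDistribMulAction V M] (p : ℕ),
    p.Prime → (∀ v : V, v ^ p = 1) → ¬ p ∣ Nat.card M → Nontrivial V →
    ∀ T : Subgroup M,
      (∀ V' : Subgroup V, V'.index = p → ∀ m : M, (∀ v ∈ V', v • m = m) → m ∈ T) → T = ⊤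

/-- **GEN** (size 130, uses LIFT and GENA).  `V ≠ 1` elementary abelian `p`-subgroup normalising a soluble
`p'`-subgroup `R`: `R` is generated by the `C_R(V')`, `V'` of index `p` in `V`.

Proof.  Strong induction on `|R|`; `R = 1` clear.  `R' = ⁅R, R⁆ < R` is normalised by `V`, so `R' ≤ T` by
induction.  `V` (as a type `↥V`, commutative by `EA.comm`) acts on the abelian group `M = Abelianization R`
(or `R ⧸ commutator R`) by conjugation.  Let `T̄` be the image in `M` of `T ⊓ R`.  Let `V'` be of index `p`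
in `V` and let `x̄ ∈ M` be fixed by `V'`: then `V'` fixes the coset `x R'` and by LIFT (for `V'` and
`N = R'`) the coset contains an element `x n` centralised by `V'`; so `x n ∈ T`, `x̄ ∈ T̄`.  By GENA
`T̄ = M`, and since `R' ≤ T` we get `R ≤ T`. -/
def S_GEN : Prop :=
  ∀ (Γ : Type) [Group Γ] [Finite Γ] (p : ℕ) (V R : Subgroup Γ), EA p V → V ≠ ⊥ →
    (∀ v ∈ V, ∀ x ∈ R, v * x * v⁻¹ ∈ R) → Group.IsSolvable R → ¬ p ∣ Nat.card R →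
    ∀ T : Subgroup Γ,
      (∀ V' : Subgroup Γ, V' ≤ V → Nat.card V = p * Nat.card V' →
        ∀ x ∈ R, (∀ v ∈ V', v * x = x * v) → x ∈ T) → R ≤ T

/-- **FIT** (size 80).  A soluble normal subgroup `L` of `Γ` contains a nilpotent subgroup `F`, normal in
`Γ`, with `C_L(F) ≤ F`.

Proof.  Let `F` be maximal (finiteness) among the nilpotent subgroups of `L` which are normal in `Γ` (`⊥` is
one).  Let `C = C_L(F) = L ⊓ Subgroup.centralizer F`, normal in `Γ`, and suppose `C ≰ F`.  Let `T` be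
minimal among the normal subgroups of `Γ` with `T ≤ C`, `T ≰ F`.  `T` is soluble and `≠ 1`, so
`⁅T, T⁆ < T`, it is normal in `Γ` and `≤ C`, so by minimality `⁅T, T⁆ ≤ F`.  As `T` centralises `F`,
`⁅⁅T, T⁆, T⁆ = 1`, so `T` is nilpotent.  `T` and `F` commute elementwise, so `(t, f) ↦ t * f` is a homomorphism
`T × F →* Γ` with range `T ⊔ F`; so `T ⊔ F` is nilpotent (`nilpotent_of_surjective` and
nilpotency of a product), normal in `Γ`, `≤ L`.  Maximality: `T ≤ F`, a contradiction. -/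
def S_FIT : Prop :=
  ∀ (Γ : Type) [Group Γ] [Finite Γ] (L : Subgroup Γ), L.Normal → Group.IsSolvable L →
    ∃ F : Subgroup Γ, F ≤ L ∧ F.Normal ∧ Group.IsNilpotent F ∧
      ∀ x ∈ L, (∀ y ∈ F, x * y = y * x) → x ∈ F

/-- **CRIT** (size 80).  A nilpotent normal subgroup `F` of `Γ` contains a subgroup `R`, normal in `Γ`, of
class at most two, with `C_F(R) ≤ R`.

Proof.  Let `A` be maximal among the abelian subgroups of `F` which are normal in `Γ`.  Let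
`R = {x ∈ F : x commutes with every element of A, and ⁅x, y⁆ ∈ A for all y ∈ F}`: a subgroup (if
`⁅x,y⁆ ∈ A` for all `y ∈ F` then `⁅x x', y⁆ = x ⁅x', y⁆ x⁻¹ ⁅x, y⁆ ∈ A` etc.; it is `F ⊓ C(A) ⊓` preimage of the
centre of `F/A`), normal in `Γ`, containing `A`; commutators of `R` lie in `A` and so commute with `R`: class
`≤ 2`.  Let `D = {x ∈ F : x commutes with every element of R}`, normal in `Γ`.  We show `D ≤ A` (`≤ R`).
Let `D₁ = {x ∈ D : ⁅x, y⁆ ∈ A for all y ∈ F}`.  Elements of `D₁` commute with `R ⊇ A`, so `D₁ ≤ R`, so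
`D₁` (which commutes with `R`) is abelian; it is normal in `Γ`, contained in `F`, and contains `A` (`A`
commutes with `R`, by the definition of `R`).  By maximality `D₁ = A`.  If `D ≰ A`, then by nilpotency of `F`
the series `E₀ = D`, `E_{i+1} = ⁅E_i, F⁆ ≤ D ⊓ γ_{i+2}(F)` ends at `1`, so there is a last `i` with
`E_i ≰ A`; then `E_{i+1} ≤ A`, so `E_i ≤ D₁ = A`, a contradiction.  (Elementwise version: by downward
induction on `i`, `D ⊓ γ_i(F) ≤ A`, with `γ_i = lowerCentralSeries`.) -/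
def S_CRIT : Prop :=
  ∀ (Γ : Type) [Group Γ] [Finite Γ] (F : Subgroup Γ), F.Normal → Group.IsNilpotent F →
    ∃ R : Subgroup Γ, R ≤ F ∧ R.Normal ∧ Cl2 R ∧ ∀ x ∈ F, (∀ y ∈ R, x * y = y * x) → x ∈ R

/-- **STR** (size 60, uses FIT and CRIT).  If `V` acts faithfully on `L` then it acts faithfully on a
normal subgroup `R ≤ L` of `Γ` of class at most two.

Proof.  General remark (A): let `X ≤ Y ≤ L` be normal in `Γ` with `C_Y(X) ≤ X`, and let `v ∈ V` centralise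
`X`; then `v` centralises `Y`.  Indeed for `x ∈ Y` let `c = x⁻¹ v x v⁻¹ ∈ Y`.  For `r ∈ X`:
`(x⁻¹ v x) r (x⁻¹ v x)⁻¹ = x⁻¹ v (x r x⁻¹) v⁻¹ x = r` (as `x r x⁻¹ ∈ X` commutes with `v`), and `v` commutes
with `r`, so `c` commutes with `r`.  Hence `c ∈ X`, so `v` commutes with `c`, `x⁻¹ v x = c v`,
`1 = x⁻¹ v^p x = (c v)^p = c^p v^p = c^p`, and `p ∤ |L|` gives `c = 1`.
Now take `F` from FIT, `R` from CRIT.  If `v ∈ V` centralises `R` then it centralises `F` by (A), hence `L` by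
(A), so `v = 1`. -/
def S_STR : Prop :=
  ∀ (Γ : Type) [Group Γ] [Finite Γ] (p : ℕ) (L V : Subgroup Γ), EA p V → L.Normal → Group.IsSolvable L →
    ¬ p ∣ Nat.card L → (∀ v ∈ V, (∀ x ∈ L, v * x = x * v) → v = 1) →
    ∃ R : Subgroup Γ, R ≤ L ∧ R.Normal ∧ Cl2 R ∧ ∀ v ∈ V, (∀ x ∈ R, v * x = x * v) → v = 1

/-- **RAD** (size 40).  In class two, `Rad R U` and `Stb V R U` are subgroups.

Proof.  `⁅x x', y⁆ = x ⁅x', y⁆ x⁻¹ * ⁅x, y⁆ = ⁅x', y⁆ * ⁅x, y⁆` and `⁅x⁻¹, y⁆ = ⁅x, y⁆⁻¹` since commutators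
of elements of `R` commute with `R`.  For `Stb`: `U ⊆ Rad R U`.  Let `v ∈ Stb`, so `v r v⁻¹ ∈ r U` for all
`r ∈ Rad`; in particular `v U v⁻¹ ⊆ U`.  If `v, v' ∈ Stb` then
`v v' r v'⁻¹ v⁻¹ ∈ v r U v⁻¹ ⊆ (v r v⁻¹) U ⊆ r U`.  Closed under products and `Γ` finite, so closed under
inverses (`v⁻¹` is a power of `v`), or directly. -/
def S_RAD : Prop :=
  ∀ (Γ : Type) [Group Γ] [Finite Γ] (R V U : Subgroup Γ), Cl2 R → NIn R U →
    (∃ Z : Subgroup Γ, (Z : Set Γ) = Rad R U) ∧ ∃ B : Subgroup Γ, (B : Set Γ) = Stb V R U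

/-- **C1** (size 60, uses RAD).  Proof.  Let `b ∈ Stb V R U` with `x⁻¹ (b x b⁻¹) ∈ Rad R U` for all `x ∈ R`;
let `c` be this element.  As `b ∈ Stb`, `b c b⁻¹ ∈ c U`; `U` is normal in `R` and normalised by `b`
(`U ⊆ Rad R U`).  So by induction `x⁻¹ b^i x b⁻ⁱ ∈ c^i U`:
`x⁻¹ b^{i+1} x b^{-i-1} = c * b (x⁻¹ b^i x b⁻ⁱ) b⁻¹`.  With `i = p`: `1 ∈ c^p U`, i.e. `c^p ∈ U`; and
`c^{|R|} = 1`, `p ∤ |R|`, so `c ∈ U`.  This for all `x ∈ R`, so `b = 1` by the last hypothesis. -/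
def S_C1 : Prop :=
  ∀ (Γ : Type) [Group Γ] [Finite Γ] (p : ℕ) (R V U : Subgroup Γ), EA p V → R.Normal → Cl2 R →
    ¬ p ∣ Nat.card R → NIn R U →
    (∀ v ∈ V, (∀ x ∈ R, x⁻¹ * (v * x * v⁻¹) ∈ U) → v = 1) →
    ∀ b ∈ Stb V R U, (∀ x ∈ R, x⁻¹ * (b * x * b⁻¹) ∈ Rad R U) → b = 1

/-- **C3** (size 80).  Let `V'` have index `p` in `V`, `b ∈ Stb V R U`, `b ∉ V'`.  Then (i) every
`x ∈ C_R(V')` has the form `x = y⁻¹ (b y b⁻¹)` with `y ∈ C_R(V')`; (ii) commutators of elements of `C_R(V')` lie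
in `U`.

Proof.  `V = V' ⟨b⟩` (index `p`), so an element of `R` commuting with `V'` and with `b` is `1`.  Hence
`y ↦ y⁻¹ (b y b⁻¹)` maps `C_R(V')` to itself (`V` is abelian, `R` normal) and is injective: from
`y⁻¹ b y = z⁻¹ b z` we get that `z y⁻¹` commutes with `b`.  By finiteness it is surjective: (i).
(ii) Let `x, y ∈ C_R(V')`, `z = ⁅x, y⁆`.  `z` lies in `Z' := {z ∈ R : z commutes with R and with V'}`, a subgroup
(normalised by `b`); by the same argument `t ↦ t⁻¹ (b t b⁻¹)` is a bijection of `Z'`, so `z = t⁻¹ (b t b⁻¹)`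
with `t ∈ Z' ⊆ Rad R U`, and `z ∈ U` as `b ∈ Stb V R U`. -/
def S_C3 : Prop :=
  ∀ (Γ : Type) [Group Γ] [Finite Γ] (p : ℕ) (R V U : Subgroup Γ), EA p V → R.Normal → Cl2 R →
    (∀ x ∈ R, (∀ v ∈ V, v * x = x * v) → x = 1) → NIn R U →
    ∀ V' : Subgroup Γ, V' ≤ V → Nat.card V = p * Nat.card V' → ∀ b ∈ Stb V R U, b ∉ V' →
      (∀ x ∈ R, (∀ v ∈ V', v * x = x * v) →
        ∃ y ∈ R, (∀ v ∈ V', v * y = y * v) ∧ x = y⁻¹ * (b * y * b⁻¹)) ∧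
      ∀ x ∈ R, ∀ y ∈ R, (∀ v ∈ V', v * x = x * v) → (∀ v ∈ V', v * y = y * v) → ⁅x, y⁆ ∈ U

/-- **GRP** (size 150, uses GEN, RAD, C1, C3).

Proof.  If `V = 1` take `Q = Rad R U` (a subgroup by RAD) and the last clause is trivial.  Let `V ≠ 1`,
`B = Stb V R U`.  Consider the subgroups `Q` with `Rad R U ⊆ Q ≤ R`, normalised by `B`, and `⁅Q, Q⁆ ⊆ U`; the
subgroup `Rad R U` is one (it is normalised by `b ∈ B`: `b r b⁻¹ ∈ r U`).  Let `Q` be a maximal one.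
Let `b ∈ B` satisfy (*) `⁅x⁻¹ (b x b⁻¹), y⁆ ∈ U` for all `x ∈ R`, `y ∈ Q`.  We show `b = 1`.
(a) `y⁻¹ (b y b⁻¹) ∈ Rad R U` for `y ∈ Q`.  Commutators are bimultiplicative in `R`.  By (*)
`⁅b x b⁻¹, y⁆ ∈ ⁅x, y⁆ U`.  As `⁅x, y⁆ ∈ Rad R U` and `b ∈ B`, `⁅b x b⁻¹, b y b⁻¹⁆ = b ⁅x, y⁆ b⁻¹ ∈ ⁅x, y⁆ U`.
So `⁅b x b⁻¹, y⁻¹ (b y b⁻¹)⁆ ∈ U` for all `x ∈ R`, and `b x b⁻¹` runs through `R`.
(b) `C_R(V') ⊆ Q` for every `V'` of index `p` in `V` with `b ∉ V'`: by C3 (i) every `x ∈ C_R(V')` is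
`y⁻¹ (b y b⁻¹)` with `y ∈ R`, so `⁅x, q⁆ ∈ U` for `q ∈ Q` by (*), and `⁅x, x'⁆ ∈ U` for `x, x' ∈ C_R(V')` by C3
(ii).  So `Q₁ = Q · C_R(V')` (a subgroup, as `Q ⊇ Rad R U ⊇ [R,R]` is normal in `R`) has `⁅Q₁, Q₁⁆ ⊆ U`, and it
is normalised by `B ⊆ V` (`V` abelian).  Maximality: `Q₁ = Q`.
(c) Let `T = {x ∈ R : x⁻¹ (b x b⁻¹) ∈ Rad R U}`, a subgroup (`R / Rad R U` is abelian and `b` normalises
`Rad R U`).  For `V'` of index `p`: if `b ∈ V'` then `C_R(V') ⊆ T` trivially; if `b ∉ V'` then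
`C_R(V') ⊆ Q ⊆ T` by (b) and (a).  By GEN, `R ≤ T` (`R` is soluble, being of class two).  By C1, `b = 1`. -/
def S_GRP : Prop :=
  ∀ (Γ : Type) [Group Γ] [Finite Γ] (p : ℕ) (R V U : Subgroup Γ), EA p V → R.Normal → Cl2 R →
    ¬ p ∣ Nat.card R → (∀ x ∈ R, (∀ v ∈ V, v * x = x * v) → x = 1) → NIn R U →
    (∀ v ∈ V, (∀ x ∈ R, x⁻¹ * (v * x * v⁻¹) ∈ U) → v = 1) →
    ∃ Q : Subgroup Γ, Rad R U ⊆ Q ∧ Q ≤ R ∧ (∀ b ∈ Stb V R U, ∀ y ∈ Q, b * y * b⁻¹ ∈ Q) ∧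
      (∀ x ∈ Q, ∀ y ∈ Q, ⁅x, y⁆ ∈ U) ∧
      ∀ b ∈ Stb V R U, (∀ x ∈ R, ∀ y ∈ Q, ⁅x⁻¹ * (b * x * b⁻¹), y⁆ ∈ U) → b = 1

/-! ## Part 2: representations -/

/-- **EIG** (size 50).  Commuting operators on a nonzero invariant subspace have a common eigenvector.

Proof.  Strong induction on `finrank X`.  If every `t ∈ T` acts on `X` as a scalar, take any `0 ≠ u ∈ X`.
Otherwise some `t ∈ T` does not; it has an eigenvalue `c` on `X` (`k` algebraically closed,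
`Module.End.exists_eigenvalue` for the restriction to `X`), and `X' = {u ∈ X : ρ t u = c • u}` is nonzero,
strictly smaller than `X`, and `T`-invariant by commutativity. -/
def S_EIG : Prop :=
  ∀ (Γ k W : Type) [Group Γ] [Field k] [IsAlgClosed k] [AddCommGroup W] [Module k W]
    [FiniteDimensional k W] (ρ : Γ →* (W →ₗ[k] W)) (T : Set Γ) (X : Submodule k W), X ≠ ⊥ →
    (∀ t ∈ T, ∀ u ∈ X, ρ t u ∈ X) → (∀ s ∈ T, ∀ t ∈ T, ∀ u ∈ X, ρ s (ρ t u) = ρ t (ρ s u)) →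
    ∃ u ∈ X, u ≠ 0 ∧ ∀ t ∈ T, ∃ c : k, ρ t u = c • u

/-- **PROJ** (size 50).  If common eigenvectors `u i` with weights `c i : J → k` sum to zero, then the sum
over those `i` with a given weight `χ` is zero.

Proof.  Induction on the number of `i ∈ T` with `c i ≠ χ` (for all families `u`).  If there is none, done.
Otherwise take `i₀` with `c i₀ ≠ χ` and `j` with `c i₀ j ≠ χ j`; apply `A j - c i₀ j` to the relation:
`∑ (c i j - c i₀ j) • u i = 0`, where the summand `i₀` vanished, so the family `u' i = (c i j - c i₀ j) • u i`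
over `T.erase i₀` satisfies the hypotheses with one bad index less.  So
`∑_{c i = χ} (χ j - c i₀ j) • u i = 0` and the scalar is nonzero. -/
def S_PROJ : Prop :=
  ∀ (k W ι J : Type) [Field k] [AddCommGroup W] [Module k W] (T : Finset ι) (u : ι → W)
    (A : J → (W →ₗ[k] W)) (c : ι → J → k) (χ : J → k),
    (∀ i ∈ T, ∀ j, A j (u i) = c i j • u i) → ∑ i ∈ T, u i = 0 →
    ∀ T' : Finset ι, (∀ i, i ∈ T' ↔ i ∈ T ∧ c i = χ) → ∑ i ∈ T', u i = 0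

/-- A vector `w` which is an eigenvector of `Rad R U`, where `U` is its stabiliser in `Rad R U`. -/
structure Good {Γ k W : Type} [Group Γ] [Field k] [AddCommGroup W] [Module k W]
    (ρ : Γ →* (W →ₗ[k] W)) (R U : Subgroup Γ) (w : W) : Prop where
  nin : NIn R U
  ne : w ≠ 0
  fixU : ∀ u ∈ U, ρ u w = w
  mem : ∀ x ∈ Rad R U, ρ x w = w → x ∈ U
  eig : ∀ x ∈ Rad R U, ∃ c : k, ρ x w = c • w

/-- `w'` has the same weight on `Rad R U` as `w`. -/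
def SameWt {Γ k W : Type} [Group Γ] [Field k] [AddCommGroup W] [Module k W]
    (ρ : Γ →* (W →ₗ[k] W)) (H : Set Γ) (w w' : W) : Prop :=
  ∀ x ∈ H, ∀ c : k, ρ x w = c • w → ρ x w' = c • w'

/-- `ρ` is irreducible. -/
def Irr {Γ k W : Type} [Group Γ] [Field k] [AddCommGroup W] [Module k W]
    (ρ : Γ →* (W →ₗ[k] W)) : Prop :=
  Nontrivial W ∧ ∀ X : Submodule k W, (∀ γ, ∀ u ∈ X, ρ γ u ∈ X) → X = ⊥ ∨ X = ⊤

/-- **REPA** (size 90, uses EIG).  Good pairs exist.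

Proof.  Let `Z = {z ∈ R : z commutes with all of R}`; it contains all commutators of `R`.  By EIG with
`X = ⊤`, `T = Z` there is `w₀ ≠ 0` and `ω : Γ → k` with `ρ z w₀ = ω z • w₀` for `z ∈ Z`.  Let
`X = {u : ρ z u = ω z • u for all z ∈ Z} ∋ w₀`.  Let `R₀ = {x ∈ R : ρ ⁅x, y⁆ w₀ = w₀ for all y ∈ R}`; then for
`x ∈ R₀`, `y ∈ R`, `⁅x, y⁆ ∈ Z` has `ω = 1` and acts trivially on `X`.  `R₀` maps `X` to itself (`Z` commutes
with `R`) and acts on it by commuting operators: `ρ x (ρ y u) = ρ ⁅x, y⁆ (ρ y (ρ x u)) = ρ y (ρ x u)`.  By EIG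
there is `0 ≠ w ∈ X`, an eigenvector of all `x ∈ R₀`.  Let `U = {x ∈ R₀ : ρ x w = w}`: a subgroup (`R₀` is one
by bimultiplicativity), and it contains `⁅x, y⁆` for `x ∈ R₀`, `y ∈ R` (`⁅x, y⁆ ∈ Z ⊆ R₀` acts trivially
on `X`).  So `NIn R U`, and `Rad R U = R₀`: if `x ∈ R` and all `⁅x, y⁆ ∈ U` then `⁅x, y⁆ ∈ Z` fixes `w ≠ 0`, so
`ω ⁅x, y⁆ = 1` and it fixes `w₀`. -/
def S_REPA : Prop :=
  ∀ (Γ k W : Type) [Group Γ] [Finite Γ] [Field k] [IsAlgClosed k] [AddCommGroup W] [Module k W]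
    [FiniteDimensional k W] [Nontrivial W] (ρ : Γ →* (W →ₗ[k] W)) (R : Subgroup Γ), R.Normal → Cl2 R →
    ∃ (U : Subgroup Γ) (w : W), Good ρ R U w

/-- **REPB** (size 120, uses GP and REPA).  A good pair with `V` acting faithfully on `R` modulo `U`.

Proof.  Take a good pair `(U, w)` from REPA.  Let `S = {γ ∈ Γ : γ normalises U and x⁻¹ (γ x γ⁻¹) ∈ U for all
x ∈ R}` — a subgroup (`γ x γ⁻¹ ∈ x U` for all `x ∈ R`; the product and inverse are clear as `U` is normalised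
by `R` and by `γ`).  By GP there is `g ∈ L` with: `v ∈ V`, `g⁻¹ v g ∈ S` ⟹ `x⁻¹ v x ∈ S` for all `x ∈ L`.  Put
`U' = g U g⁻¹`, `w' = ρ g w`: again a good pair (`R` is normal, `Rad R U' = g (Rad R U) g⁻¹`).
Let `v ∈ V` with `x⁻¹ (v x v⁻¹) ∈ U'` for all `x ∈ R`.  Then `g⁻¹ v g ∈ S` (for `y ∈ R` put `x = g y g⁻¹`;
`g⁻¹ v g` normalises `U`, since `(g⁻¹vg) u (g⁻¹vg)⁻¹ ∈ u U = U` for `u ∈ U ≤ R`).  So `x⁻¹ v x ∈ S` for all
`x ∈ L`, and for all `γ ∈ Γ` `γ⁻¹ v γ ∈ S`: by `Cfg.gen` applied to `γ⁻¹`, `γ⁻¹ = x⁻¹ u⁻¹`-form, i.e.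
`γ = u x` with `u ∈ V`, `x ∈ L`, and `γ⁻¹ v γ = x⁻¹ (u⁻¹ v u) x = x⁻¹ v x`.  So for `y ∈ R` the element
`c = y⁻¹ (v y v⁻¹)` lies in `γ U γ⁻¹` and so fixes `ρ γ w`, for every `γ ∈ Γ` (apply `γ⁻¹ v γ ∈ S` to the
element `γ⁻¹ y γ ∈ R`).  The span of all `ρ γ w` is `Γ`-invariant and nonzero, so it is `⊤`; so `ρ c = 1`,
`c ∈ R ≤ L`, `c = 1` by faithfulness.  So `v` centralises `R` and `v = 1`. -/
def S_REPB : Prop :=
  ∀ (Γ k W : Type) [Group Γ] [Finite Γ] [Field k] [IsAlgClosed k] [AddCommGroup W] [Module k W]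
    [FiniteDimensional k W] (ρ : Γ →* (W →ₗ[k] W)) (p : ℕ) (L V R : Subgroup Γ), Cfg p L V → Irr ρ →
    (∀ x ∈ L, ρ x = 1 → x = 1) → R ≤ L → R.Normal → Cl2 R →
    (∀ v ∈ V, (∀ x ∈ R, v * x = x * v) → v = 1) →
    ∃ (U : Subgroup Γ) (w : W), Good ρ R U w ∧
      ∀ v ∈ V, (∀ x ∈ R, x⁻¹ * (v * x * v⁻¹) ∈ U) → v = 1

/-- **REPC1** (size 60, uses EIG).  A `Q`-eigenvector of the same weight on `Rad R U`.

Proof.  `X = {u : SameWt ρ (Rad R U) w u}` is a submodule containing `w`.  For `x ∈ Rad R U`, `y ∈ Q` (even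
`y ∈ R`) and `u ∈ X`: `ρ x (ρ y u) = ρ y (ρ (y⁻¹ x y) u)` and `y⁻¹ x y = x ⁅x⁻¹, y⁻¹⁆` with `⁅x⁻¹, y⁻¹⁆ ∈ U`
(`x⁻¹ ∈ Rad R U`, class two), which fixes `w` and hence every `u ∈ X` (`U ⊆ Rad R U`, take `c = 1`); so `X` is
`Q`-stable; and `Q` acts on `X` by commuting operators since `⁅y, y'⁆ ∈ U` fixes `X` pointwise.  EIG. -/
def S_REPC1 : Prop :=
  ∀ (Γ k W : Type) [Group Γ] [Finite Γ] [Field k] [IsAlgClosed k] [AddCommGroup W] [Module k W]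
    [FiniteDimensional k W] (ρ : Γ →* (W →ₗ[k] W)) (R U Q : Subgroup Γ) (w : W), R.Normal → Cl2 R →
    Good ρ R U w → Rad R U ⊆ Q → Q ≤ R → (∀ x ∈ Q, ∀ y ∈ Q, ⁅x, y⁆ ∈ U) →
    ∃ w₁ : W, w₁ ≠ 0 ∧ SameWt ρ (Rad R U) w w₁ ∧ ∀ y ∈ Q, ∃ c : k, ρ y w₁ = c • w₁

/-- **REPC2** (size 150, uses GPA and RAD).  Moving the `Q`-eigenvector by an element of `R`.

Proof.  Let `B` be the subgroup with underlying set `Stb V R U` (RAD), `B ≤ V`, so `EA p B`.  Let `χ y` be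
the eigenvalue of `y ∈ Q` on `w₁`, `Wχ = {u : SameWt ρ Q w₁ u} = {u : ρ y u = χ y • u for y ∈ Q}`, a submodule, and
`Ŝ = {γ ∈ Γ : for all u, u ∈ Wχ ↔ ρ γ u ∈ Wχ}`, a subgroup.  `⁅x, y⁆ ∈ Ŝ` for `x, y ∈ R`: it lies in
`Rad R U ⊆ Q` (class two) and acts on `Wχ` by a nonzero scalar (if `u ∈ Wχ` then `ρ z u = χ z • u ∈ Wχ`; same
for `z⁻¹`).  GPA with `N = R`, `S = Ŝ`, `V = B`: there is `n ∈ R` with `b ∈ B`, `n⁻¹ b n ∈ Ŝ` ⟹
`x⁻¹ b x ∈ Ŝ` for all `x ∈ R`.  Put `w' = ρ n w₁`.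
(1) SameWt: for `x ∈ Rad R U`, `ρ x w' = ρ n (ρ (n⁻¹ x n) w₁)`, `n⁻¹ x n = x ⁅x⁻¹, n⁻¹⁆` and
`⁅x⁻¹, n⁻¹⁆ ∈ U` fixes `w` and so fixes `w₁`.
(2) `Q` is normal in `R` (as `Q ⊇ Rad R U ⊇ [R,R]`), so `ρ y w' = ρ n (ρ (n⁻¹ y n) w₁) = χ(n⁻¹ y n) • w'`.
(3) Let `b ∈ B` with `SameWt ρ Q w' (ρ b w')`.  Then `χ'(b⁻¹ y b) = χ'(y)` for `y ∈ Q`, where
`χ'(y) = χ(n⁻¹ y n)` [`ρ y (ρ b w') = ρ b (ρ (b⁻¹ y b) w')`; note `b⁻¹ y b ∈ Q`: `b⁻¹ ∈ B`].  Let `u ∈ Wχ`,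
`y ∈ Q`, `y₁ = n y n⁻¹ ∈ Q`:
`ρ y (ρ (n⁻¹ b n) u) = ρ (n⁻¹ b n) (ρ (n⁻¹ b⁻¹ y₁ b n) u) = χ(n⁻¹ (b⁻¹ y₁ b) n) • … = χ'(y₁) • … = χ(y) • …`.
So `n⁻¹ b n` maps `Wχ` into itself, hence (finite dimension, or finite order of the element) `n⁻¹ b n ∈ Ŝ`.
So `x⁻¹ b x ∈ Ŝ` for all `x ∈ R`, also `b ∈ Ŝ` (`x = 1`), and so `r := x⁻¹ (b x b⁻¹) ∈ Ŝ ⊓ R`.  Then for
`y ∈ Q`, `ρ y (ρ r w₁) = χ y • ρ r w₁ = ρ r (ρ y w₁)`, so `ρ ⁅r⁻¹, y⁻¹⁆ w₁ = w₁`, and `⁅r⁻¹, y⁻¹⁆ = ⁅r, y⁆`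
(class two) lies in `Rad R U`; so if `ρ ⁅r, y⁆ w = c • w` (`Good.eig`) then `ρ ⁅r, y⁆ w₁ = c • w₁` by SameWt, so
`c = 1`, `ρ ⁅r, y⁆ w = w` and `⁅r, y⁆ ∈ U` by `Good.mem`. -/
def S_REPC2 : Prop :=
  ∀ (Γ k W : Type) [Group Γ] [Finite Γ] [Field k] [AddCommGroup W] [Module k W]
    [FiniteDimensional k W] (ρ : Γ →* (W →ₗ[k] W)) (p : ℕ) (R V U Q : Subgroup Γ) (w w₁ : W),
    EA p V → R.Normal → Cl2 R → ¬ p ∣ Nat.card R → Good ρ R U w → Rad R U ⊆ Q → Q ≤ R →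
    (∀ b ∈ Stb V R U, ∀ y ∈ Q, b * y * b⁻¹ ∈ Q) → w₁ ≠ 0 → SameWt ρ (Rad R U) w w₁ →
    (∀ y ∈ Q, ∃ c : k, ρ y w₁ = c • w₁) →
    ∃ w' : W, w' ≠ 0 ∧ SameWt ρ (Rad R U) w w' ∧ (∀ y ∈ Q, ∃ c : k, ρ y w' = c • w') ∧
      ∀ b ∈ Stb V R U, SameWt ρ (Q : Set Γ) w' (ρ b w') →
        ∀ x ∈ R, ∀ y ∈ Q, ⁅x⁻¹ * (b * x * b⁻¹), y⁆ ∈ U

/-- **REPD** (size 150, uses PROJ).  The vector `∑_{v ∈ V} ρ v w'` is nonzero.

Proof.  Put `u_v = ρ v w'` and suppose `∑_{v ∈ V} u_v = 0`.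
Step 1.  `Z = {z ∈ R : z commutes with R} ⊆ Rad R U`, stable under conjugation by `Γ`.  For `z ∈ Z` let `ω z` be
the eigenvalue on `w` (and on `w'`).  `ρ z u_v = ρ v (ρ (v⁻¹ z v) w') = ω(v⁻¹ z v) • u_v`.  By PROJ with
`J = Z`, `χ = ω`: `∑_{v ∈ T₁} u_v = 0`, `T₁ = {v ∈ V : ω(v⁻¹ z v) = ω z for all z ∈ Z}`.
Step 2.  Each `v ∈ T₁` satisfies `v⁻¹ x v ∈ Rad R U` for `x ∈ Rad R U`: for `y ∈ R`,
`⁅v⁻¹ x v, y⁆ = v⁻¹ ⁅x, v y v⁻¹⁆ v`, `z = ⁅x, v y v⁻¹⁆ ∈ U ⊓ Z` has `ω z = 1`, so `ω(v⁻¹ z v) = 1` and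
`v⁻¹ z v ∈ U` by `Good.mem`.  With `ψ x` the eigenvalue of `x ∈ Rad R U` on `w` and `w'`:
`ρ x u_v = ψ(v⁻¹ x v) • u_v` for `v ∈ T₁`.  PROJ: `∑_{v ∈ T₂} u_v = 0`,
`T₂ = {v ∈ T₁ : ψ(v⁻¹ x v) = ψ x for all x ∈ Rad R U}`.
Step 3.  `T₂ ⊆ Stb V R U`: let `v ∈ T₂`, `r ∈ Rad R U`; `x ↦ v⁻¹ x v` is an injective map of the finite set
`Rad R U` to itself, so surjective, and `x = v r v⁻¹ ∈ Rad R U`; `ψ r = ψ(v r v⁻¹)`, so
`r⁻¹ (v r v⁻¹) ∈ Rad R U` fixes `w` and lies in `U` by `Good.mem`.  (`Rad R U` is a subgroup by class two.)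
So for `v ∈ T₂`: `v⁻¹ y v ∈ Q` for `y ∈ Q` (finiteness again) and `ρ y u_v = χ(v⁻¹ y v) • u_v`, `χ y` the
eigenvalue of `y` on `w'`.  PROJ with `J = Q`: `∑_{v ∈ T₃} u_v = 0`,
`T₃ = {v ∈ T₂ : χ(v⁻¹ y v) = χ y for all y ∈ Q}`.  For `v ∈ T₃`, `SameWt ρ Q w' (ρ v w')`, so `v = 1` by the
last hypothesis; and `1 ∈ T₃`.  So `w' = 0`, a contradiction. -/
def S_REPD : Prop :=
  ∀ (Γ k W : Type) [Group Γ] [Fintype Γ] [DecidableEq Γ] [Field k] [AddCommGroup W] [Module k W]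
    (ρ : Γ →* (W →ₗ[k] W)) (R V U Q : Subgroup Γ) [DecidablePred (· ∈ V)] (w w' : W),
    R.Normal → Cl2 R → Good ρ R U w → Rad R U ⊆ Q → Q ≤ R →
    (∀ b ∈ Stb V R U, ∀ y ∈ Q, b * y * b⁻¹ ∈ Q) → w' ≠ 0 → SameWt ρ (Rad R U) w w' →
    (∀ y ∈ Q, ∃ c : k, ρ y w' = c • w') →
    (∀ b ∈ Stb V R U, SameWt ρ (Q : Set Γ) w' (ρ b w') → b = 1) →
    ∑ v ∈ (Finset.univ : Finset Γ).filter (· ∈ V), ρ v w' ≠ 0

/-- **SP** (size 60, uses STR, GRP, REPB, REPC1, REPC2, REPD).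

Proof.  Suppose `V` acts faithfully on `L`.  `R` from STR; `(U, w)` from REPB; `Q` from GRP; `w₁` from REPC1; `w'`
from REPC2; by the last clauses of REPC2 and GRP, `b ∈ Stb V R U` with `SameWt ρ Q w' (ρ b w')` is `1`.  By REPD
`f = ∑_{v ∈ V} ρ v w' ≠ 0`, and `f` is fixed by `V` (reindex the sum). -/
def S_SP : Prop :=
  ∀ (Γ k W : Type) [Group Γ] [Finite Γ] [Field k] [IsAlgClosed k] [AddCommGroup W] [Module k W]
    [FiniteDimensional k W] (ρ : Γ →* (W →ₗ[k] W)) (p : ℕ) (L V : Subgroup Γ), Cfg p L V → Irr ρ →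
    (∀ x ∈ L, ρ x = 1 → x = 1) → (∀ f : W, (∀ v ∈ V, ρ v f = f) → f = 0) →
    ∃ v ∈ V, v ≠ 1 ∧ ∀ x ∈ L, v * x = x * v

/-- **SS** (size 150, uses SP and LIFT).

Proof.  Let `W ≤ E` be a minimal nonzero `Γ`-invariant submodule; `ρ_W : Γ →* (W →ₗ W)` the restriction,
irreducible.  `N₀ = {x ∈ L : ρ x acts trivially on W}`, normal in `Γ`.  Let `Γ̄ = Γ ⧸ N₀`, `L̄, V̄` the images
(`Subgroup.map (QuotientGroup.mk' N₀)`), `ρ̄ : Γ̄ →* (W →ₗ W)` the induced representation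
(`QuotientGroup.lift`), irreducible.  `Cfg p L̄ V̄`: `V̄` elementary abelian, `L̄` normal, soluble (image of
`L`), `|L̄|` divides `|L|`; `fpf`: if `x ∈ L` and `x̄` commutes with `V̄` then `x⁻¹ (v x v⁻¹) ∈ N₀` for
`v ∈ V`, so by LIFT some `x n`, `n ∈ N₀`, commutes with `V`; `x n ∈ L`, so `x n = 1`, `x̄ = 1`; `gen` clear.
`L̄` is faithful on `W` by construction.  A vector of `W` fixed by `V̄` is fixed by `V`, so `0`.  By SP there is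
`v ∈ V`, `v̄ ≠ 1` (so `v ≠ 1`) with `v̄` centralising `L̄`: `x⁻¹ (v x v⁻¹) ∈ N₀` for all `x ∈ L`.  Any
`0 ≠ f ∈ W` works. -/
def S_SS : Prop :=
  ∀ (Γ k E : Type) [Group Γ] [Finite Γ] [Field k] [IsAlgClosed k] [AddCommGroup E] [Module k E]
    [FiniteDimensional k E] [Nontrivial E] (ρ : Γ →* (E →ₗ[k] E)) (p : ℕ) (L V : Subgroup Γ),
    Cfg p L V → (∀ f : E, (∀ v ∈ V, ρ v f = f) → f = 0) →
    ∃ v ∈ V, v ≠ 1 ∧ ∃ f : E, f ≠ 0 ∧ ∀ x ∈ L, ρ (x⁻¹ * (v * x * v⁻¹)) f = f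

/-! ## Part 3: the theorem -/

/-- **HOMK** (size 80).  A minimal normal subgroup `M ≤ L` of `Γ` (`L` soluble) is abelian, and for some
prime `q` dividing `|M|` the space of homomorphisms `M → k`, `k` the algebraic closure of `ZMod q`, is
nonzero.

Proof.  `⁅M, M⁆` is normal in `Γ` and `≠ M` as `M ≠ 1` is soluble, so it is `1`: `M` abelian.  Let `q` be a prime
dividing `|M|`; `{m ∈ M : m^q = 1}` is a normal subgroup of `Γ`, nontrivial by Cauchy, so it is `M`.  So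
`Additive M` is a module over `ZMod q` (`AddCommGroup.zmodModule`), nonzero, so there is a nonzero linear form
`M → ZMod q`; compose with `algebraMap (ZMod q) (AlgebraicClosure (ZMod q))` (injective). -/
def S_HOMK : Prop :=
  ∀ (Γ : Type) [Group Γ] [Finite Γ] (L M : Subgroup Γ), Group.IsSolvable L → M ≤ L → M.Normal → M ≠ ⊥ →
    (∀ M' : Subgroup Γ, M'.Normal → M' ≤ M → M' = ⊥ ∨ M' = M) →
    (∀ x ∈ M, ∀ y ∈ M, x * y = y * x) ∧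
    ∃ (q : ℕ) (_ : Fact q.Prime), q ∣ Nat.card M ∧
      ∃ f : M → AlgebraicClosure (ZMod q), (∀ x y : M, f (x * y) = f x + f y) ∧ f ≠ 0

/-- **CF** (size 180, uses SS and HOMK).  A minimal normal subgroup `M ≤ L` of `Γ` is centralised by
`[L, v]` for some `1 ≠ v ∈ V`.

Proof.  Take `q` and `k = AlgebraicClosure (ZMod q)` from HOMK, and `E = {f : M → k : f(xy) = f x + f y}`, a
submodule of `M → k` (so finite-dimensional), nonzero; `Γ` acts by `(γ f)(m) = f(γ⁻¹ m γ)`.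
No nonzero `V`-fixed vector: let `f` be fixed by `V` and `m ∈ M`; the product `m* = ∏_{v ∈ V} v⁻¹ m v` (in the
abelian group `M`) commutes with `V`, so `m* = 1`, and `0 = f(m*) = ∑_v f(v⁻¹ m v) = |V| f(m)`.  `|V|` is a power
of `p ≠ q` (as `q ∣ |L|`, `p ∤ |L|`), so it is invertible in `k`; `f = 0`.
By SS: `v ∈ V`, `v ≠ 1`, `0 ≠ f ∈ E` fixed by all `c_x = x⁻¹ (v x v⁻¹)`, `x ∈ L`.  Let `N_v` be the subgroup
generated by the `c_x`; it is normal in `Γ`: for `u ∈ V`, `u c_x u⁻¹ = c_{u x u⁻¹}`; for `y ∈ L`,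
`y⁻¹ c_x y = c_{xy} c_y⁻¹` [check: `c_{xy} = y⁻¹ x⁻¹ v x y v⁻¹ = (y⁻¹ c_x y) (y⁻¹ v y v⁻¹) = (y⁻¹ c_x y) c_y`]; and
`Γ = L V`.  All of `N_v` fixes `f`.  Let `T = {m ∈ M : f(γ⁻¹ m γ) = 0 for all γ ∈ Γ}`: a normal subgroup of `Γ`
in `M`, `≠ M` since `f ≠ 0`; so `T = 1` by minimality.  For `m ∈ M`, `c ∈ N_v` and `γ ∈ Γ`, with
`m' = γ⁻¹ m γ`, `c' = γ⁻¹ c γ ∈ N_v`: `f(γ⁻¹ (m⁻¹ c m c⁻¹) γ) = f(m'⁻¹) + f(c' m' c'⁻¹) = -f(m') + f(m') = 0`.  So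
`m⁻¹ c m c⁻¹ ∈ T = 1`. -/
def S_CF : Prop :=
  ∀ (Γ : Type) [Group Γ] [Finite Γ] (p : ℕ) (L V M : Subgroup Γ), Cfg p L V → M ≤ L → M.Normal →
    M ≠ ⊥ → (∀ M' : Subgroup Γ, M'.Normal → M' ≤ M → M' = ⊥ ∨ M' = M) →
    ∃ v ∈ V, v ≠ 1 ∧ ∀ x ∈ L, ∀ m ∈ M, (x⁻¹ * (v * x * v⁻¹)) * m = m * (x⁻¹ * (v * x * v⁻¹))

/-- **NIL** (size 150, uses CF and LIFT).  `H ≤ L` contained in every `[L, v]`, `v ≠ 1`, is nilpotent.

Proof.  Strong induction on `|Γ|` (for all `Γ`).  `L = 1`: clear.  Otherwise let `M ≤ L` be a minimal nontrivial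
normal subgroup of `Γ` contained in `L`.  By CF some `v ≠ 1` in `V` with all `x⁻¹ (v x v⁻¹)`, `x ∈ L`,
centralising `M`; so `[L, v]`, hence `H`, centralises `M`.  In `Γ̄ = Γ ⧸ M` (smaller) the images satisfy `Cfg`
(as in SS, with LIFT), and `H̄ ≤` closure of the `x̄⁻¹ v̄ x̄ v̄⁻¹` for `1 ≠ v̄ ∈ V̄`; so `H̄` is nilpotent by
induction.  The homomorphism `H → H̄` has kernel `H ⊓ M`, central in `H`; so `H` is nilpotent
(`Group.isNilpotent_of_ker_le_center`). -/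
def S_NIL : Prop :=
  ∀ (Γ : Type) [Group Γ] [Finite Γ] (p : ℕ) (L V H : Subgroup Γ), Cfg p L V → H ≤ L →
    (∀ v ∈ V, v ≠ 1 → H ≤ Subgroup.closure {y : Γ | ∃ x ∈ L, y = x⁻¹ * (v * x * v⁻¹)}) →
    Group.IsNilpotent H

/-- The target: question 1 for soluble `G` (the frozen statement S03375 with `Group.IsSolvable G`). -/
def Target : Prop :=
  ∀ (p n : ℕ), p.Prime →
    ∀ (G : Type) [Group G] [Finite G] [Group.IsSolvable G] (V : Type) [CommGroup V] [Finite V]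
      [MulDistribMulAction V G],
      Nat.card V = p ^ n → (∀ v : V, v ^ p = 1) → (∀ g : G, (∀ v : V, v • g = g) → g = 1) →
      Group.IsNilpotent
        (↥((⨅ (v : V) (_ : v ≠ 1),
          Subgroup.closure {x : G | ∃ g : G, x = g⁻¹ * (v • g)}) : Subgroup G))

/-- **TOP** (size 120, uses NIL).

Proof.  If `V` is trivial then every `g` is fixed, `G = 1`, clear.  Otherwise `V` is a nontrivial `p`-group
acting on the set `G` with exactly one fixed point, so `|G| ≡ 1 mod p` (`IsPGroup.card_modEq_card_fixedPoints`),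
`p ∤ |G|`.  Take `Γ = G ⋊[φ] V`, `φ = MulDistribMulAction.toMulAut V G`, `L = range inl`, `V` = `range inr`;
`inr v * inl g * (inr v)⁻¹ = inl (v • g)`.  Check `Cfg`, take `H` = image under `inl` of the
intersection, apply NIL, and pull nilpotency back along the isomorphism `H ≃ inl H`. -/
def S_TOP : Prop := Target

end Pool.Agent.Run7.h676.NI
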