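import Pool.Agent.Run7.h676.NI.Iface

/-! Quotients of configurations -/

set_option autoImplicit false

open scoped commutatorElement

namespace Pool.Agent.Run7.h676.NI

variable {Γ : Type} [Group Γ] [Finite Γ]

lemma mk_comm_iff {N : Subgroup Γ} [N.Normal] (v x : Γ) :
    QuotientGroup.mk' N v * QuotientGroup.mk' N x = QuotientGroup.mk' N x * QuotientGroup.mk' N v ↔
      x⁻¹ * (v * x * v⁻¹) ∈ N := by
  rw [← QuotientGroup.eq_one_iff (N := N), ← map_mul, ← map_mul]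
  have h1 : ((x⁻¹ * (v * x * v⁻¹) : Γ) : Γ ⧸ N) =
      (QuotientGroup.mk' N (x * v) )⁻¹ * QuotientGroup.mk' N (x * v * (x⁻¹ * (v * x * v⁻¹))) := by
    rw [← map_inv, ← map_mul]
    congr 1
    group
  constructor
  · intro h
    change QuotientGroup.mk' N (x⁻¹ * (v * x * v⁻¹)) = 1
    have h2 : x⁻¹ * (v * x * v⁻¹) = x⁻¹ * ((v * x) * v⁻¹) := by group
    rw [h2, map_mul, map_mul _ (v * x), h, map_mul, ← map_mul, ← map_mul, ← map_mul]
    rw [← map_one (QuotientGroup.mk' N)]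
    congr 1
    group
  · intro h
    have h3 : QuotientGroup.mk' N (x⁻¹ * (v * x * v⁻¹)) = 1 := h
    have h4 : v * x = x * (x⁻¹ * (v * x * v⁻¹)) * v := by group
    rw [h4, map_mul, map_mul, h3, mul_one, ← map_mul]

lemma cfg_quot (hLIFT : S_LIFT) {p : ℕ} {L V : Subgroup Γ} (h : Cfg p L V) (N : Subgroup Γ)
    [N.Normal] (hNL : N ≤ L) :
    Cfg p (L.map (QuotientGroup.mk' N)) (V.map (QuotientGroup.mk' N)) where
  ea :=
    { prime := h.ea.prime
      comm := by
        rintro _ ⟨v, hv, rfl⟩ _ ⟨w, hw, rfl⟩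
        rw [← map_mul, ← map_mul, h.ea.comm v hv w hw]
      exp := by
        rintro _ ⟨v, hv, rfl⟩
        rw [← map_pow, h.ea.exp v hv, map_one] }
  normal := h.normal.map _ (QuotientGroup.mk'_surjective N)
  solv := by
    have := h.solv
    exact Group.isSolvable_of_surjective ((QuotientGroup.mk' N).subgroupMap_surjective L)
  cop := fun hd => h.cop (hd.trans (Subgroup.card_map_dvd L (QuotientGroup.mk' N)))
  fpf := by
    rintro _ ⟨x, hx, rfl⟩ hc
    have hNc : ¬ p ∣ Nat.card N := fun hd => h.cop (hd.trans (Subgroup.card_dvd_of_le hNL))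
    obtain ⟨n, hn, hv⟩ := hLIFT Γ p V N h.ea (fun v _ y hy => Subgroup.Normal.conj_mem ‹_› y hy v)
      hNc x (fun v hv => (mk_comm_iff v x).1 (hc _ ⟨v, hv, rfl⟩))
    have h1 : x * n = 1 := h.fpf _ (L.mul_mem hx (hNL hn)) hv
    have h2 : x = n⁻¹ := eq_inv_of_mul_eq_one_left h1
    rw [h2]
    exact (QuotientGroup.eq_one_iff _).2 (N.inv_mem hn)
  gen := by
    intro γ
    obtain ⟨g, rfl⟩ := QuotientGroup.mk'_surjective N γ
    obtain ⟨x, hx, v, hv, rfl⟩ := h.gen g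
    exact ⟨_, ⟨x, hx, rfl⟩, _, ⟨v, hv, rfl⟩, map_mul _ _ _⟩

end Pool.Agent.Run7.h676.NI
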