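import Pool.Agent.Run7.h676.NI.REPD

/-! Piece REPC2 -/

set_option autoImplicit false

open scoped commutatorElement

namespace Pool.Agent.Run7.h676.NI

lemma smul_inj_aux {k W : Type} [Field k] [AddCommGroup W] [Module k W] {a b : k} {u : W}
    (hu : u ≠ 0) (h : a • u = b • u) : a = b := by
  have h2 : (a - b) • u = 0 := by rw [sub_smul, h, sub_self]
  rcases smul_eq_zero.1 h2 with h3 | h3
  · exact sub_eq_zero.1 h3
  · exact absurd h3 hu

theorem t_REPC2 (hGPA : S_GPA) (hRAD : S_RAD) : S_REPC2 := by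
  intro Γ k W _ _ _ _ _ _ ρ p R V U Q w w₁ hea hRn hR2 hcop hg hQ1 hQ2 hQ3 hw1 hs1 he1
  classical
  have hU := hg.nin
  obtain ⟨_, B, hB⟩ := hRAD Γ R V U hR2 hU
  have memB : ∀ x, x ∈ B ↔ x ∈ Stb V R U := by
    intro x; rw [← hB]; rfl
  have hBV : B ≤ V := fun x hx => ((memB x).1 hx).1
  have heB : EA p B :=
    { prime := hea.prime
      comm := fun v hv w hw => hea.comm v (hBV hv) w (hBV hw)
      exp := fun v hv => hea.exp v (hBV hv) }
  have hexχ : ∀ y : Γ, ∃ c : k, y ∈ Q → ρ y w₁ = c • w₁ := by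
    intro y
    by_cases hy : y ∈ Q
    · obtain ⟨c, hc⟩ := he1 y hy
      exact ⟨c, fun _ => hc⟩
    · exact ⟨0, fun h => absurd h hy⟩
  choose χ hχ using hexχ
  let X : Set W := {u | ∀ y ∈ Q, ρ y u = χ y • u}
  have hX1 : w₁ ∈ X := fun y hy => hχ y hy
  have hXsmul : ∀ (c : k), ∀ u ∈ X, c • u ∈ X := by
    intro c u hu y hy
    rw [map_smul, hu y hy, smul_comm]
  let S : Subgroup Γ :=
    { carrier := {γ | ∀ u, u ∈ X ↔ ρ γ u ∈ X}
      mul_mem' := by
        intro a b ha hb u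
        rw [rho_mul]
        exact (hb u).trans (ha _)
      one_mem' := by
        intro u
        rw [rho_one]
      inv_mem' := by
        intro a ha u
        have h1 := ha (ρ a⁻¹ u)
        rw [← rho_mul, mul_inv_cancel, rho_one] at h1
        exact h1.symm }
  have memS : ∀ γ, γ ∈ S ↔ ∀ u, u ∈ X ↔ ρ γ u ∈ X := fun γ => Iff.rfl
  have hQS : ∀ z ∈ Q, z ∈ S := by
    intro z hz
    rw [memS]
    intro u
    constructor
    · intro hu
      rw [hu z hz]
      exact hXsmul _ _ hu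
    · intro hu
      have h1 := hu z⁻¹ (Q.inv_mem hz)
      rw [rho_inv] at h1
      rw [h1]
      exact hXsmul _ _ hu
  obtain ⟨n, hnR, hn⟩ := hGPA Γ p R S B heB hRn hcop
    (fun x hx y hy => hQS _ (hQ1 (comm_mem_Rad hR2 hx hy)))
  have hUfix : ∀ x ∈ U, ρ x w₁ = w₁ := by
    intro x hx
    have h1 := hs1 x (U_sub_Rad hU hx) 1 (by rw [one_smul]; exact hg.fixU x hx)
    rwa [one_smul] at h1
  have hQconj : ∀ x ∈ R, ∀ y ∈ Q, x⁻¹ * y * x ∈ Q := by
    intro x hx y hy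
    have h1 : x⁻¹ * y * x = y * ⁅y⁻¹, x⁻¹⁆ := by rw [commutatorElement_def]; group
    rw [h1]
    exact Q.mul_mem hy (hQ1 (comm_mem_Rad hR2 (R.inv_mem (hQ2 hy)) (R.inv_mem hx)))
  have hw'ne : ρ n w₁ ≠ 0 := by
    intro h
    have h1 := rho_inv ρ n w₁
    rw [h, map_zero] at h1
    exact hw1 h1.symm
  have hwt : ∀ y ∈ Q, ρ y (ρ n w₁) = χ (n⁻¹ * y * n) • ρ n w₁ := by
    intro y hy
    rw [rho_conj, hχ _ (hQconj n hnR y hy), map_smul]
  refine ⟨ρ n w₁, hw'ne, ?_, fun y hy => ⟨_, hwt y hy⟩, ?_⟩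
  · intro x hx c hc
    have h1 : n⁻¹ * x * n = x * ⁅x⁻¹, n⁻¹⁆ := by rw [commutatorElement_def]; group
    have h2 : ⁅x⁻¹, n⁻¹⁆ ∈ U := by
      rw [cl2_invL hR2 hx.1 (R.inv_mem hnR)]
      exact U.inv_mem (hx.2 _ (R.inv_mem hnR))
    rw [rho_conj, h1, rho_mul, hUfix _ h2, hs1 x hx c hc, map_smul]
  · intro b hb hsame x hx y hy
    have hbB : b ∈ B := (memB b).2 hb
    have hbne : ρ b (ρ n w₁) ≠ 0 := by
      intro h
      have h1 := rho_inv ρ b (ρ n w₁)
      rw [h, map_zero] at h1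
      exact hw'ne h1.symm
    have hbQ : ∀ y ∈ Q, b⁻¹ * y * b ∈ Q := by
      intro y hy
      have h1 := hQ3 b⁻¹ ((memB _).1 (B.inv_mem hbB)) y hy
      simpa using h1
    have key : ∀ y ∈ Q, χ (n⁻¹ * (b⁻¹ * y * b) * n) = χ (n⁻¹ * y * n) := by
      intro y hy
      have h1 := hsame y hy _ (hwt y hy)
      rw [rho_conj, hwt _ (hbQ y hy), map_smul] at h1
      exact smul_inj_aux hbne h1
    have hmap : ∀ u ∈ X, ρ (n⁻¹ * b * n) u ∈ X := by
      intro u hu y hy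
      have hy1 : n * y * n⁻¹ ∈ Q := by simpa using hQconj n⁻¹ (R.inv_mem hnR) y hy
      have h1 : (n⁻¹ * b * n)⁻¹ * y * (n⁻¹ * b * n) = n⁻¹ * (b⁻¹ * (n * y * n⁻¹) * b) * n := by
        group
      have h2 : n⁻¹ * (b⁻¹ * (n * y * n⁻¹) * b) * n ∈ Q := hQconj n hnR _ (hbQ _ hy1)
      have h3 : n⁻¹ * (n * y * n⁻¹) * n = y := by group
      rw [rho_conj, h1, hu _ h2, map_smul, key _ hy1, h3]
    have hgS : n⁻¹ * b * n ∈ S := by
      set g := n⁻¹ * b * n with hgdef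
      have hpow : ∀ m : ℕ, ∀ u ∈ X, ρ (g ^ m) u ∈ X := by
        intro m
        induction m with
        | zero => intro u hu; rw [pow_zero, rho_one]; exact hu
        | succ m ih => intro u hu; rw [pow_succ', rho_mul]; exact hmap _ (ih u hu)
      rw [memS]
      intro u
      refine ⟨hmap u, fun hu => ?_⟩
      have h1 := hpow (orderOf g - 1) _ hu
      rw [← rho_mul, ← pow_succ, Nat.sub_add_cancel (orderOf_pos g), pow_orderOf_eq_one,
        rho_one] at h1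
      exact h1
    have hall := hn b hbB hgS
    have hbS : b ∈ S := by simpa using hall 1 R.one_mem
    set r := x⁻¹ * (b * x * b⁻¹) with hr
    have hrR : r ∈ R := R.mul_mem (R.inv_mem hx) (hRn.conj_mem x hx b)
    have hrS : r ∈ S := by
      have h1 := S.mul_mem (hall x hx) (S.inv_mem hbS)
      have h2 : x⁻¹ * b * x * b⁻¹ = r := by rw [hr]; group
      rwa [h2] at h1
    have hyR : y ∈ R := hQ2 hy
    have h1 : ρ r w₁ ∈ X := ((memS r).1 hrS w₁).1 hX1
    have h2 : ρ y (ρ r w₁) = ρ r (ρ y w₁) := by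
      rw [h1 y hy, hX1 y hy, map_smul]
    have h3 : ρ ⁅r, y⁆ w₁ = w₁ := by
      have h4 : ⁅r, y⁆ = (y * r)⁻¹ * (r * y) := by
        have h5 : ⁅r⁻¹, y⁻¹⁆ = ⁅r, y⁆ := by
          rw [cl2_invL hR2 hrR (R.inv_mem hyR), cl2_invR hR2 hrR hyR, inv_inv]
        rw [← h5, commutatorElement_def]
        group
      rw [h4, rho_mul, rho_mul, ← h2, ← rho_mul ρ y r, rho_inv]
    have hcR : ⁅r, y⁆ ∈ Rad R U := comm_mem_Rad hR2 hrR hyR
    obtain ⟨c, hc⟩ := hg.eig _ hcR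
    have h6 := hs1 _ hcR c hc
    have h7 : c = 1 := by
      refine smul_inj_aux hw1 ?_
      rw [← h6, h3, one_smul]
    refine hg.mem _ hcR ?_
    rw [hc, h7, one_smul]

end Pool.Agent.Run7.h676.NI
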