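import Pool.Agent.Run7.h676.NI.Cl

/-! Piece REPD -/

set_option autoImplicit false

open scoped commutatorElement

namespace Pool.Agent.Run7.h676.NI

section

variable {Γ k W : Type} [Group Γ] [Field k] [AddCommGroup W] [Module k W]
    (ρ : Γ →* (W →ₗ[k] W))

lemma rho_mul (a b : Γ) (u : W) : ρ (a * b) u = ρ a (ρ b u) := by
  rw [map_mul]; rfl

lemma rho_one (u : W) : ρ 1 u = u := by
  rw [map_one]; rfl

lemma rho_conj (z v : Γ) (u : W) : ρ z (ρ v u) = ρ v (ρ (v⁻¹ * z * v) u) := by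
  rw [← rho_mul, ← rho_mul]
  congr 2
  group

lemma rho_inv (z : Γ) (u : W) : ρ z⁻¹ (ρ z u) = u := by
  rw [← rho_mul, inv_mul_cancel, rho_one]

end

theorem t_REPD (hP : S_PROJ) : S_REPD := by
  intro Γ k W _ _ _ _ _ _ ρ R V U Q _ w w' hRn hR2 hg hQ1 hQ2 hQ3 hw' hws hwe hlast hsum
  classical
  have hU := hg.nin
  have hconj : ∀ v : Γ, ∀ x ∈ R, v⁻¹ * x * v ∈ R := fun v x hx => by
    simpa using hRn.conj_mem x hx v⁻¹
  have hconj' : ∀ v : Γ, ∀ x ∈ R, v * x * v⁻¹ ∈ R := fun v x hx => hRn.conj_mem x hx v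
  -- the weights
  have hexψ : ∀ x : Γ, ∃ c : k, x ∈ Rad R U → ρ x w = c • w := by
    intro x
    by_cases hx : x ∈ Rad R U
    · obtain ⟨c, hc⟩ := hg.eig x hx
      exact ⟨c, fun _ => hc⟩
    · exact ⟨0, fun h => absurd h hx⟩
  choose ψ hψ using hexψ
  have hψ' : ∀ x ∈ Rad R U, ρ x w' = ψ x • w' := fun x hx => hws x hx _ (hψ x hx)
  have hexχ : ∀ y : Γ, ∃ c : k, y ∈ Q → ρ y w' = c • w' := by
    intro y
    by_cases hy : y ∈ Q
    · obtain ⟨c, hc⟩ := hwe y hy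
      exact ⟨c, fun _ => hc⟩
    · exact ⟨0, fun h => absurd h hy⟩
  choose χ hχ using hexχ
  have hψmem : ∀ x ∈ Rad R U, ψ x = 1 → x ∈ U := by
    intro x hx h1
    refine hg.mem x hx ?_
    rw [hψ x hx, h1, one_smul]
  have hψU : ∀ x ∈ U, ψ x = 1 := by
    intro x hx
    have h1 := hψ x (U_sub_Rad hU hx)
    rw [hg.fixU x hx] at h1
    have h2 : (1 - ψ x) • w = 0 := by rw [sub_smul, one_smul, ← h1, sub_self]
    rcases smul_eq_zero.1 h2 with h3 | h3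
    · exact (sub_eq_zero.1 h3).symm
    · exact absurd h3 hg.ne
  have hZRad : ∀ z ∈ R, (∀ y ∈ R, z * y = y * z) → z ∈ Rad R U := by
    intro z hz hc
    refine ⟨hz, fun y hy => ?_⟩
    rw [commutatorElement_eq_one_iff_mul_comm.2 (hc y hy)]
    exact U.one_mem
  have hZconj : ∀ v : Γ, ∀ z ∈ R, (∀ y ∈ R, z * y = y * z) →
      v⁻¹ * z * v ∈ R ∧ ∀ y ∈ R, (v⁻¹ * z * v) * y = y * (v⁻¹ * z * v) := by
    intro v z hz hc
    refine ⟨hconj v z hz, fun y hy => ?_⟩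
    have h1 := hc _ (hconj' v y hy)
    calc (v⁻¹ * z * v) * y = v⁻¹ * (z * (v * y * v⁻¹)) * v := by group
      _ = v⁻¹ * ((v * y * v⁻¹) * z) * v := by rw [h1]
      _ = y * (v⁻¹ * z * v) := by group
  -- step 1
  set T0 : Finset Γ := (Finset.univ : Finset Γ).filter (· ∈ V) with hT0
  let u : Γ → W := fun v => ρ v w'
  let J1 : Type := {z : Γ // z ∈ R ∧ ∀ y ∈ R, z * y = y * z}
  have s1 := hP k W Γ J1 T0 u (fun z => ρ z.1) (fun v z => ψ (v⁻¹ * z.1 * v)) (fun z => ψ z.1)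
    (by
      intro v _ z
      change ρ z.1 (ρ v w') = _ • ρ v w'
      obtain ⟨h1, h2⟩ := hZconj v z.1 z.2.1 z.2.2
      rw [rho_conj, hψ' _ (hZRad _ h1 h2), map_smul]) hsum
    (T0.filter fun v => (fun z : J1 => ψ (v⁻¹ * z.1 * v)) = fun z : J1 => ψ z.1)
    (fun i => Finset.mem_filter)
  set T1 := T0.filter fun v => (fun z : J1 => ψ (v⁻¹ * z.1 * v)) = fun z : J1 => ψ z.1 with hT1
  -- step 2
  have hstab : ∀ v ∈ T1, ∀ x ∈ Rad R U, v⁻¹ * x * v ∈ Rad R U := by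
    intro v hv x hx
    have hv2 := (Finset.mem_filter.1 hv).2
    refine ⟨hconj v x hx.1, fun y hy => ?_⟩
    have hy' := hconj' v y hy
    have hz : ⁅x, v * y * v⁻¹⁆ ∈ U := hx.2 _ hy'
    have hzc : ∀ t ∈ R, ⁅x, v * y * v⁻¹⁆ * t = t * ⁅x, v * y * v⁻¹⁆ := fun t ht =>
      cl2_comm hR2 hx.1 hy' ht
    have hzR : ⁅x, v * y * v⁻¹⁆ ∈ R := comm_mem hx.1 hy'
    have h1 := congrFun hv2 ⟨_, hzR, hzc⟩
    have h2 : ψ (v⁻¹ * ⁅x, v * y * v⁻¹⁆ * v) = 1 := h1.trans (hψU _ hz)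
    obtain ⟨h3, h4⟩ := hZconj v _ hzR hzc
    have h5 := hψmem _ (hZRad _ h3 h4) h2
    have h6 : v⁻¹ * ⁅x, v * y * v⁻¹⁆ * v = ⁅v⁻¹ * x * v, y⁆ := by
      simp only [commutatorElement_def]; group
    rwa [h6] at h5
  let J2 : Type := {x : Γ // x ∈ Rad R U}
  have s2 := hP k W Γ J2 T1 u (fun z => ρ z.1) (fun v z => ψ (v⁻¹ * z.1 * v)) (fun z => ψ z.1)
    (by
      intro v hv z
      change ρ z.1 (ρ v w') = _ • ρ v w'
      rw [rho_conj, hψ' _ (hstab v hv _ z.2), map_smul]) s1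
    (T1.filter fun v => (fun z : J2 => ψ (v⁻¹ * z.1 * v)) = fun z : J2 => ψ z.1)
    (fun i => Finset.mem_filter)
  set T2 := T1.filter fun v => (fun z : J2 => ψ (v⁻¹ * z.1 * v)) = fun z : J2 => ψ z.1 with hT2
  -- step 3
  have hsurj : ∀ v : Γ, ∀ S : Set Γ, (∀ x ∈ S, v⁻¹ * x * v ∈ S) → ∀ x ∈ S, v * x * v⁻¹ ∈ S := by
    intro v S hS x hx
    have hinj : Function.Injective (fun x : S => (⟨v⁻¹ * x.1 * v, hS x.1 x.2⟩ : S)) := by
      intro a b hab
      apply Subtype.ext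
      have := congrArg Subtype.val hab
      simpa using this
    obtain ⟨y, hy⟩ := (Finite.injective_iff_surjective.1 hinj) ⟨x, hx⟩
    have h1 : v⁻¹ * y.1 * v = x := congrArg Subtype.val hy
    rw [← h1]
    have h2 : v * (v⁻¹ * y.1 * v) * v⁻¹ = y.1 := by group
    rw [h2]
    exact y.2
  have hstb : ∀ v ∈ T2, v ∈ Stb V R U := by
    intro v hv
    obtain ⟨hv1, hv2⟩ := Finset.mem_filter.1 hv
    have hvV : v ∈ V := (Finset.mem_filter.1 (Finset.mem_filter.1 hv1).1).2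
    refine ⟨hvV, fun r hr => ?_⟩
    have hx : v * r * v⁻¹ ∈ Rad R U := hsurj v (Rad R U) (hstab v hv1) r hr
    have h1 := congrFun hv2 ⟨_, hx⟩
    have h2 : v⁻¹ * (v * r * v⁻¹) * v = r := by group
    simp only [h2] at h1
    refine hg.mem _ ?_ ?_
    · refine ⟨R.mul_mem (R.inv_mem hr.1) hx.1, fun y hy => ?_⟩
      rw [cl2_mulL hR2 (R.inv_mem hr.1) hx.1 hy, cl2_invL hR2 hr.1 hy]
      exact U.mul_mem (U.inv_mem (hr.2 y hy)) (hx.2 y hy)
    · rw [rho_mul, hψ _ hx, ← h1, ← hψ _ hr, rho_inv]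
  have hQstab : ∀ v ∈ T2, ∀ y ∈ Q, v⁻¹ * y * v ∈ Q := by
    intro v hv y hy
    have h1 := hsurj v⁻¹ (Q : Set Γ) (fun x hx => by simpa using hQ3 v (hstb v hv) x hx) y hy
    simpa using h1
  let J3 : Type := {x : Γ // x ∈ Q}
  have s3 := hP k W Γ J3 T2 u (fun z => ρ z.1) (fun v z => χ (v⁻¹ * z.1 * v)) (fun z => χ z.1)
    (by
      intro v hv z
      change ρ z.1 (ρ v w') = _ • ρ v w'
      rw [rho_conj, hχ _ (hQstab v hv _ z.2), map_smul]) s2
    {1}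
    (by
      intro v
      rw [Finset.mem_singleton]
      constructor
      · rintro rfl
        refine ⟨?_, ?_⟩
        · refine Finset.mem_filter.2 ⟨Finset.mem_filter.2 ⟨Finset.mem_filter.2
            ⟨Finset.mem_univ _, V.one_mem⟩, ?_⟩, ?_⟩
          · funext z; simp
          · funext z; simp
        · funext z; simp
      · rintro ⟨hv, hvχ⟩
        refine hlast v (hstb v hv) ?_
        intro y hy c hc
        have h1 : c = χ y := by
          have h2 : (c - χ y) • w' = 0 := by rw [sub_smul, ← hc, ← hχ y hy, sub_self]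
          rcases smul_eq_zero.1 h2 with h3 | h3
          · exact sub_eq_zero.1 h3
          · exact absurd h3 hw'
        have h2 := congrFun hvχ ⟨y, hy⟩
        simp only at h2
        rw [rho_conj, hχ _ (hQstab v hv y hy), map_smul, h2, h1])
  rw [Finset.sum_singleton] at s3
  exact hw' (by simpa [u, rho_one] using s3)

end Pool.Agent.Run7.h676.NI
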